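import Pool.Agent.Lib.MP_b75bf2_nt.Uniform

section
/-!
Petridis' inequality for truncated sums, and: if `B` is not extraordinary then no `h`-fold sum of
`B` is extraordinary.
-/
set_option autoImplicit false
open Classical
open scoped Pointwise

namespace Pool.Agent.Lib.MP_b75bf2_nt

/-- Elements of `S` in `(t, N]`. -/
noncomputable def flt (S : Set ℕ) (t N : ℕ) : Finset ℕ := (Finset.Ioc t N).filter (fun a => a ∈ S)

lemma mem_flt {S : Set ℕ} {t N a : ℕ} : a ∈ flt S t N ↔ (t < a ∧ a ≤ N) ∧ a ∈ S := by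
  unfold flt
  rw [Finset.mem_filter, Finset.mem_Ioc]

lemma cnt_eq_flt (S : Set ℕ) (N : ℕ) : cnt S N = (flt S 0 N).card := rfl

lemma cnt_split (S : Set ℕ) {t N : ℕ} (h : t ≤ N) :
    cnt S N = cnt S t + (flt S t N).card := by
  unfold cnt flt
  have h1 : Finset.Ioc 0 N = Finset.Ioc 0 t ∪ Finset.Ioc t N := by
    ext a; simp only [Finset.mem_Ioc, Finset.mem_union]; omega
  rw [h1, Finset.filter_union, Finset.card_union_of_disjoint]
  rw [Finset.disjoint_left]
  intro a ha hb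
  rw [Finset.mem_filter, Finset.mem_Ioc] at ha hb
  omega

lemma cnt_congr {S T : Set ℕ} {N : ℕ} (h : ∀ n, 1 ≤ n → n ≤ N → n ∈ S → n ∈ T) :
    cnt S N ≤ cnt T N := by
  unfold cnt
  refine Finset.card_le_card ?_
  intro a ha
  rw [Finset.mem_filter, Finset.mem_Ioc] at ha ⊢
  exact ⟨ha.1, h a ha.1.1 ha.1.2 ha.2⟩

lemma cnt_finset {Z : Finset ℕ} {N : ℕ} (hZ : ∀ z ∈ Z, 1 ≤ z ∧ z ≤ N) :
    cnt (Z : Set ℕ) N = Z.card := by
  rw [cnt_eq_flt]
  congr 1
  ext a
  rw [mem_flt]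
  constructor
  · rintro ⟨_, h⟩; exact h
  · intro h
    have := hZ a h
    exact ⟨⟨this.1, this.2⟩, h⟩

/-- The set `Z` is a minimiser for all initial intervals. -/
lemma minimiser (B : Set ℕ) (K : ℝ) (N : ℕ) (Z : Finset ℕ)
    (hZ : ∀ z ∈ Z, 1 ≤ z ∧ z ≤ N)
    (hmin : ∀ Y ⊆ Z, (cnt ((Z : Set ℕ) + B) N : ℝ) - K * Z.card ≤
      cnt ((Y : Set ℕ) + B) N - K * Y.card)
    {t : ℕ} (ht : t ≤ N) (Y : Finset ℕ) (hY : Y ⊆ Z) (hYt : ∀ z ∈ Y, z ≤ t) :
    (cnt ((Z : Set ℕ) + B) t : ℝ) - K * cnt (Z : Set ℕ) t ≤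
      cnt ((Y : Set ℕ) + B) t - K * Y.card := by
  set W : Finset ℕ := Z.filter (fun z => t < z) with hW
  have hYW : Disjoint Y W := by
    rw [Finset.disjoint_left]
    intro z hz hz'
    have := hYt z hz
    rw [hW, Finset.mem_filter] at hz'
    omega
  have h1 := hmin (Y ∪ W) (Finset.union_subset hY (Finset.filter_subset _ _))
  have hcard : ((Y ∪ W).card : ℝ) = Y.card + W.card := by
    rw [Finset.card_union_of_disjoint hYW]; push_cast; ring
  have hZc : (Z.card : ℝ) = cnt (Z : Set ℕ) t + W.card := by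
    have e1 : Z.card = cnt (Z : Set ℕ) N := (cnt_finset hZ).symm
    have e2 := cnt_split (Z : Set ℕ) ht
    have e3 : flt (Z : Set ℕ) t N = W := by
      ext a
      rw [mem_flt, hW, Finset.mem_filter]
      constructor
      · rintro ⟨⟨h1, h2⟩, h3⟩; exact ⟨h3, h1⟩
      · rintro ⟨h1, h2⟩; exact ⟨⟨h2, (hZ a h1).2⟩, h1⟩
    rw [e3] at e2
    exact_mod_cast e1.trans e2
  have hle : cnt (((Y ∪ W : Finset ℕ) : Set ℕ) + B) N ≤
      cnt ((Y : Set ℕ) + B) t + (flt ((Z : Set ℕ) + B) t N).card := by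
    rw [cnt_split (((Y ∪ W : Finset ℕ) : Set ℕ) + B) ht]
    refine Nat.add_le_add (cnt_congr ?_) (Finset.card_le_card ?_)
    · rintro n h1 h2 ⟨x, hx, b, hb, hxb⟩
      simp only at hxb
      rw [Finset.mem_coe, Finset.mem_union] at hx
      rcases hx with hx | hx
      · exact ⟨x, hx, b, hb, hxb⟩
      · rw [hW, Finset.mem_filter] at hx
        omega
    · intro n hn
      rw [mem_flt] at hn ⊢
      refine ⟨hn.1, ?_⟩
      obtain ⟨x, hx, b, hb, hxb⟩ := hn.2
      refine ⟨x, ?_, b, hb, hxb⟩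
      rw [Finset.mem_coe, Finset.mem_union] at hx
      rcases hx with hx | hx
      · exact hY hx
      · exact (Finset.mem_filter.1 hx).1
  have hZN := cnt_split ((Z : Set ℕ) + B) ht
  have hle' : (cnt (((Y ∪ W : Finset ℕ) : Set ℕ) + B) N : ℝ) ≤
      cnt ((Y : Set ℕ) + B) t + (flt ((Z : Set ℕ) + B) t N).card := by
    exact_mod_cast hle
  have hZN' : (cnt ((Z : Set ℕ) + B) N : ℝ) =
      cnt ((Z : Set ℕ) + B) t + (flt ((Z : Set ℕ) + B) t N).card := by
    exact_mod_cast hZN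
  rw [hcard, hZc] at h1
  linarith

/-- Petridis' inequality for truncated sums. -/
lemma petridis (B : Set ℕ) {K : ℝ} (hK : 0 ≤ K) (N : ℕ) (Z : Finset ℕ)
    (hZ : ∀ z ∈ Z, 1 ≤ z ∧ z ≤ N)
    (hmin : ∀ Y ⊆ Z, (cnt ((Z : Set ℕ) + B) N : ℝ) - K * Z.card ≤
      cnt ((Y : Set ℕ) + B) N - K * Y.card) (C : Finset ℕ) :
    (cnt ((Z : Set ℕ) + B + (C : Set ℕ)) N : ℝ) ≤ K * cnt ((Z : Set ℕ) + (C : Set ℕ)) N := by
  induction C using Finset.induction_on with
  | empty => simp [cnt]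
  | insert c C hc ih =>
    by_cases hcN : N < c
    · -- nothing changes
      have h1 : cnt ((Z : Set ℕ) + B + ((insert c C : Finset ℕ) : Set ℕ)) N ≤
          cnt ((Z : Set ℕ) + B + (C : Set ℕ)) N := by
        refine cnt_congr ?_
        rintro n h1 h2 ⟨x, hx, d, hd, hxd⟩
        simp only at hxd
        rw [Finset.mem_coe, Finset.mem_insert] at hd
        rcases hd with hd | hd
        · omega
        · exact ⟨x, hx, d, hd, hxd⟩
      have h2 : cnt ((Z : Set ℕ) + (C : Set ℕ)) N =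
          cnt ((Z : Set ℕ) + ((insert c C : Finset ℕ) : Set ℕ)) N := by
        refine le_antisymm (cnt_congr ?_) (cnt_congr ?_)
        · rintro n h1 h2 ⟨x, hx, d, hd, hxd⟩
          exact ⟨x, hx, d, by simp [Finset.mem_coe.1 hd], hxd⟩
        · rintro n h1 h2 ⟨x, hx, d, hd, hxd⟩
          simp only at hxd
          rw [Finset.mem_coe, Finset.mem_insert] at hd
          rcases hd with hd | hd
          · omega
          · exact ⟨x, hx, d, hd, hxd⟩
      have h1' : (cnt ((Z : Set ℕ) + B + ((insert c C : Finset ℕ) : Set ℕ)) N : ℝ) ≤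
          cnt ((Z : Set ℕ) + B + (C : Set ℕ)) N := by exact_mod_cast h1
      rw [h2] at ih
      linarith
    · push Not at hcN
      set t := N - c with ht
      set Y : Finset ℕ := Z.filter (fun z => z ≤ t ∧ z + c ∈ (Z : Set ℕ) + (C : Set ℕ)) with hY
      have hm := minimiser B K N Z hZ hmin (t := t) (by omega) Y (Finset.filter_subset _ _)
        (fun z hz => (Finset.mem_filter.1 hz).2.1)
      -- new elements of Z + B + C
      have h1 : cnt ((Z : Set ℕ) + B + ((insert c C : Finset ℕ) : Set ℕ)) N +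
          cnt ((Y : Set ℕ) + B) t ≤
          cnt ((Z : Set ℕ) + B + (C : Set ℕ)) N + cnt ((Z : Set ℕ) + B) t := by
        have e1 : flt ((Z : Set ℕ) + B + ((insert c C : Finset ℕ) : Set ℕ)) 0 N ⊆
            flt ((Z : Set ℕ) + B + (C : Set ℕ)) 0 N ∪
            (flt ((Z : Set ℕ) + B) 0 t \ flt ((Y : Set ℕ) + B) 0 t).image (fun m => m + c) := by
          intro n hn
          rw [mem_flt] at hn
          obtain ⟨hnN, u, hu, d, hd, hud⟩ := hn
          simp only at hud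
          rw [Finset.mem_union]
          by_cases hnC : n ∈ (Z : Set ℕ) + B + (C : Set ℕ)
          · left
            rw [mem_flt]
            exact ⟨hnN, hnC⟩
          · right
            rw [Finset.mem_coe, Finset.mem_insert] at hd
            rcases hd with hd | hd
            · subst hd
              rw [Finset.mem_image]
              have hu1 : 1 ≤ u := by
                obtain ⟨x, hx, b, hb, hxb⟩ := hu
                have := (hZ x hx).1
                simp only at hxb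
                omega
              refine ⟨u, ?_, hud⟩
              rw [Finset.mem_sdiff, mem_flt, mem_flt]
              refine ⟨⟨by omega, hu⟩, ?_⟩
              rintro ⟨_, x, hx, b, hb, hxb⟩
              apply hnC
              rw [Finset.mem_coe, hY, Finset.mem_filter] at hx
              obtain ⟨z, hz, d', hd', hzd⟩ := hx.2.2
              simp only at hzd hxb
              exact ⟨z + b, ⟨z, hz, b, hb, rfl⟩, d', hd', by simp only; omega⟩
            · exact absurd ⟨u, hu, d, hd, hud⟩ hnC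
        have e2 := (Finset.card_le_card e1).trans
          ((Finset.card_union_le _ _).trans (Nat.add_le_add_left Finset.card_image_le _))
        have e3 : flt ((Y : Set ℕ) + B) 0 t ⊆ flt ((Z : Set ℕ) + B) 0 t := by
          intro a ha
          rw [mem_flt] at ha ⊢
          refine ⟨ha.1, ?_⟩
          obtain ⟨x, hx, b, hb, hxb⟩ := ha.2
          exact ⟨x, (Finset.mem_filter.1 hx).1, b, hb, hxb⟩
        have e4 := Finset.card_sdiff_add_card_eq_card e3
        simp only [cnt_eq_flt]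
        omega
      -- new elements of Z + C
      have h2 : cnt ((Z : Set ℕ) + (C : Set ℕ)) N + cnt (Z : Set ℕ) t ≤
          cnt ((Z : Set ℕ) + ((insert c C : Finset ℕ) : Set ℕ)) N + Y.card := by
        have e1 : flt ((Z : Set ℕ) + (C : Set ℕ)) 0 N ∪
            (flt (Z : Set ℕ) 0 t \ Y).image (fun m => m + c) ⊆
            flt ((Z : Set ℕ) + ((insert c C : Finset ℕ) : Set ℕ)) 0 N := by
          intro n hn
          rw [Finset.mem_union] at hn
          rcases hn with hn | hn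
          · rw [mem_flt] at hn ⊢
            refine ⟨hn.1, ?_⟩
            obtain ⟨x, hx, d, hd, hxd⟩ := hn.2
            exact ⟨x, hx, d, by simp [Finset.mem_coe.1 hd], hxd⟩
          · rw [Finset.mem_image] at hn
            obtain ⟨m, hm1, hm2⟩ := hn
            rw [Finset.mem_sdiff, mem_flt] at hm1
            rw [mem_flt]
            exact ⟨by omega, m, hm1.1.2, c, by simp, hm2⟩
        have e2 : Disjoint (flt ((Z : Set ℕ) + (C : Set ℕ)) 0 N)
            ((flt (Z : Set ℕ) 0 t \ Y).image (fun m => m + c)) := by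
          rw [Finset.disjoint_left]
          intro n hn hn'
          rw [Finset.mem_image] at hn'
          obtain ⟨m, hm1, hm2⟩ := hn'
          rw [Finset.mem_sdiff, mem_flt] at hm1
          apply hm1.2
          rw [hY, Finset.mem_filter]
          rw [mem_flt] at hn
          refine ⟨hm1.1.2, hm1.1.1.2, ?_⟩
          rw [hm2]; exact hn.2
        have e3 := Finset.card_le_card e1
        rw [Finset.card_union_of_disjoint e2,
          Finset.card_image_of_injective _ (add_left_injective c)] at e3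
        have e4 : Y ⊆ flt (Z : Set ℕ) 0 t := by
          intro z hz
          rw [hY, Finset.mem_filter] at hz
          rw [mem_flt]
          exact ⟨⟨(hZ z hz.1).1, hz.2.1⟩, hz.1⟩
        have e5 := Finset.card_sdiff_add_card_eq_card e4
        simp only [cnt_eq_flt]
        omega
      have h1' : (cnt ((Z : Set ℕ) + B + ((insert c C : Finset ℕ) : Set ℕ)) N : ℝ) +
          cnt ((Y : Set ℕ) + B) t ≤
          cnt ((Z : Set ℕ) + B + (C : Set ℕ)) N + cnt ((Z : Set ℕ) + B) t := by exact_mod_cast h1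
      have h2' : (cnt ((Z : Set ℕ) + (C : Set ℕ)) N : ℝ) + cnt (Z : Set ℕ) t ≤
          cnt ((Z : Set ℕ) + ((insert c C : Finset ℕ) : Set ℕ)) N + Y.card := by exact_mod_cast h2
      have h3 : K * ((cnt ((Z : Set ℕ) + (C : Set ℕ)) N : ℝ) + cnt (Z : Set ℕ) t) ≤
          K * (cnt ((Z : Set ℕ) + ((insert c C : Finset ℕ) : Set ℕ)) N + Y.card) :=
        mul_le_mul_of_nonneg_left h2' hK
      linarith

end Pool.Agent.Lib.MP_b75bf2_nt
end

section
/-!
If `B` is not an extraordinary component then no `h`-fold sum of `B` is one.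
-/
set_option autoImplicit false
open Classical
open scoped Pointwise

namespace Pool.Agent.Lib.MP_b75bf2_nt

/-- The `h`-fold sum of `B`. -/
def kB (B : Set ℕ) : ℕ → Set ℕ
  | 0 => {0}
  | h + 1 => kB B h + B

lemma zero_mem_kB {B : Set ℕ} (h0 : 0 ∈ B) (h : ℕ) : 0 ∈ kB B h := by
  induction h with
  | zero => simp [kB]
  | succ h ih => exact ⟨0, ih, 0, h0, rfl⟩

lemma iter_bound (B : Set ℕ) {K : ℝ} (hK : 0 ≤ K) (N : ℕ) (Z : Finset ℕ)
    (hZ : ∀ z ∈ Z, 1 ≤ z ∧ z ≤ N)
    (hmin : ∀ Y ⊆ Z, (cnt ((Z : Set ℕ) + B) N : ℝ) - K * Z.card ≤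
      cnt ((Y : Set ℕ) + B) N - K * Y.card) (h : ℕ) :
    (cnt ((Z : Set ℕ) + kB B h) N : ℝ) ≤ K ^ h * Z.card := by
  induction h with
  | zero =>
    have e : (Z : Set ℕ) + kB B 0 = (Z : Set ℕ) := by simp [kB]
    rw [e, cnt_finset hZ]
    simp
  | succ h ih =>
    set C : Finset ℕ := (Finset.range (N + 1)).filter (fun c => c ∈ kB B h) with hC
    have h1 : cnt ((Z : Set ℕ) + kB B (h + 1)) N ≤ cnt ((Z : Set ℕ) + B + (C : Set ℕ)) N := by
      refine cnt_congr ?_
      rintro n hn1 hn2 ⟨z, hz, u, ⟨c, hc, b, hb, hcb⟩, hzu⟩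
      simp only at hcb hzu
      refine ⟨z + b, ⟨z, hz, b, hb, rfl⟩, c, ?_, by simp only; omega⟩
      rw [Finset.mem_coe, hC, Finset.mem_filter, Finset.mem_range]
      exact ⟨by omega, hc⟩
    have h2 : cnt ((Z : Set ℕ) + (C : Set ℕ)) N ≤ cnt ((Z : Set ℕ) + kB B h) N := by
      refine cnt_mono_set ?_ N
      rintro n ⟨z, hz, c, hc, hzc⟩
      rw [Finset.mem_coe, hC, Finset.mem_filter] at hc
      exact ⟨z, hz, c, hc.2, hzc⟩
    have h3 := petridis B hK N Z hZ hmin C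
    have h1' : (cnt ((Z : Set ℕ) + kB B (h + 1)) N : ℝ) ≤
      cnt ((Z : Set ℕ) + B + (C : Set ℕ)) N := by exact_mod_cast h1
    have h2' : (cnt ((Z : Set ℕ) + (C : Set ℕ)) N : ℝ) ≤ cnt ((Z : Set ℕ) + kB B h) N := by
      exact_mod_cast h2
    have h4 := mul_le_mul_of_nonneg_left (h2'.trans ih) hK
    rw [pow_succ]
    calc (cnt ((Z : Set ℕ) + kB B (h + 1)) N : ℝ) ≤ K * cnt ((Z : Set ℕ) + (C : Set ℕ)) N :=
          h1'.trans h3
      _ ≤ K * (K ^ h * Z.card) := h4
      _ = K ^ h * K * Z.card := by ring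

/-- Shifted counting. -/
lemma cnt_shift (S T : Set ℕ) (x n : ℕ) (h : ∀ m, 1 ≤ m → m ≤ n → x + m ∈ S → m ∈ T) :
    cnt S (x + n) ≤ cnt S x + cnt T n := by
  rw [cnt_split S (Nat.le_add_right x n)]
  refine Nat.add_le_add_left ?_ _
  rw [cnt_eq_flt T n]
  refine le_trans ?_ (Finset.card_image_le (s := flt T 0 n) (f := fun m => x + m))
  refine Finset.card_le_card ?_
  intro a ha
  rw [mem_flt] at ha
  rw [Finset.mem_image]
  refine ⟨a - x, ?_, by omega⟩
  rw [mem_flt]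
  refine ⟨by omega, h (a - x) (by omega) (by omega) ?_⟩
  have e : x + (a - x) = a := by omega
  rw [e]; exact ha.2

/-- A dense piece: if `Z` has almost all elements of `A` then some shift of `Z` is dense from the
left. -/
lemma exists_start (Z : Set ℕ) (a : ℝ) (N : ℕ) :
    ∃ x ≤ N, (cnt Z x : ℝ) ≤ a * x ∧
      ∀ y, x ≤ y → y ≤ N → a * ((y : ℝ) - x) ≤ cnt Z y - cnt Z x := by
  obtain ⟨x, hx, hmin⟩ := Finset.exists_min_image (Finset.range (N + 1))
    (fun x => (cnt Z x : ℝ) - a * x) ⟨0, by simp⟩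
  rw [Finset.mem_range] at hx
  refine ⟨x, by omega, ?_, fun y h1 h2 => ?_⟩
  · have := hmin 0 (by simp)
    simp only [cnt_zero, Nat.cast_zero, mul_zero, sub_zero] at this
    linarith
  · have := hmin y (by rw [Finset.mem_range]; omega)
    linarith

/-- The set found in the piece of `A` on which the growth is bounded: the ground set. -/
lemma exists_piece {A B : Set ℕ} {M a : ℝ} (hM1 : 1 ≤ M) (N : ℕ)
    (hN : (cnt (A + B) N : ℝ) ≤ M * a * N) (h : ℕ) :
    ∃ Z : Finset ℕ, (∀ z ∈ Z, 1 ≤ z ∧ z ≤ N) ∧ (∀ z ∈ Z, z ∈ A) ∧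
      (cnt A N : ℝ) - Z.card ≤ a * N / 4 ∧
      (cnt ((Z : Set ℕ) + kB B h) N : ℝ) ≤ (4 * M) ^ h * Z.card := by
  set G : Finset ℕ := flt A 0 N with hG
  obtain ⟨Z, hZG, hZmin⟩ := Finset.exists_min_image G.powerset
    (fun Y : Finset ℕ => (cnt ((Y : Set ℕ) + B) N : ℝ) - 4 * M * Y.card)
    ⟨∅, Finset.empty_mem_powerset _⟩
  rw [Finset.mem_powerset] at hZG
  have hZ : ∀ z ∈ Z, 1 ≤ z ∧ z ≤ N := by
    intro z hz
    have := hZG hz
    rw [hG, mem_flt] at this
    exact ⟨this.1.1, this.1.2⟩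
  have hmin : ∀ Y ⊆ Z, (cnt ((Z : Set ℕ) + B) N : ℝ) - 4 * M * Z.card ≤
      cnt ((Y : Set ℕ) + B) N - 4 * M * Y.card :=
    fun Y hY => hZmin Y (Finset.mem_powerset.2 (hY.trans hZG))
  refine ⟨Z, hZ, fun z hz => (mem_flt.1 (hZG hz)).2, ?_, iter_bound B (by linarith) N Z hZ hmin h⟩
  have h1 := hZmin G (Finset.mem_powerset.2 (Finset.Subset.refl _))
  have h2 : cnt ((G : Set ℕ) + B) N ≤ cnt (A + B) N := by
    refine cnt_mono_set ?_ N
    rintro n ⟨x, hx, b, hb, hxb⟩
    rw [Finset.mem_coe, hG, mem_flt] at hx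
    exact ⟨x, hx.2, b, hb, hxb⟩
  have h2' : (cnt ((G : Set ℕ) + B) N : ℝ) ≤ cnt (A + B) N := by exact_mod_cast h2
  have h3 : (0 : ℝ) ≤ cnt ((Z : Set ℕ) + B) N := Nat.cast_nonneg _
  have h4 : (cnt A N : ℝ) = G.card := rfl
  rw [h4]
  have hMpos : 0 < M := by linarith
  have h5 : M * (4 * ((G.card : ℝ) - Z.card)) ≤ M * (a * N) := by linarith
  have h6 := le_of_mul_le_mul_left h5 hMpos
  linarith

/-- Counting a shifted copy. -/
lemma cnt_image (S T : Set ℕ) (x n N : ℕ) (hN : x + n ≤ N) (h : ∀ m, m ∈ S → x + m ∈ T) :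
    cnt S n ≤ cnt T N := by
  rw [cnt_eq_flt, cnt_eq_flt]
  refine le_trans ?_ (Finset.card_le_card (s := (flt S 0 n).image (fun m => x + m)) ?_)
  · rw [Finset.card_image_of_injective _ (add_right_injective x)]
  · intro k hk
    rw [Finset.mem_image] at hk
    obtain ⟨m, hm, hmk⟩ := hk
    rw [mem_flt] at hm
    rw [mem_flt]
    refine ⟨by omega, ?_⟩
    rw [← hmk]
    exact h m hm.2

/-- The shifted set. -/
lemma shifted_dense {Z : Set ℕ} {a : ℝ} (ha1 : a ≤ 1) {x N : ℕ} (hxN : x ≤ N)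
    (hx2 : ∀ y, x ≤ y → y ≤ N → a * ((y : ℝ) - x) ≤ cnt Z y - cnt Z x) (n : ℕ) :
    a * n ≤ cnt {n | n = 0 ∨ x + n ∈ Z ∨ N - x < n} n := by
  set A' : Set ℕ := {n | n = 0 ∨ x + n ∈ Z ∨ N - x < n} with hA'
  have key : ∀ n : ℕ, n ≤ N - x → a * n ≤ cnt A' n := by
    intro n hn
    have h1 := cnt_shift Z A' x n (fun m _ _ hm => Or.inr (Or.inl hm))
    have h1' : (cnt Z (x + n) : ℝ) ≤ cnt Z x + cnt A' n := by exact_mod_cast h1
    have h2 := hx2 (x + n) (by omega) (by omega)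
    push_cast at h2
    linarith
  by_cases hn : n ≤ N - x
  · exact key n hn
  · push Not at hn
    have h1 := key (N - x) le_rfl
    have h2 := cnt_split A' hn.le
    have h3 : flt A' (N - x) n = Finset.Ioc (N - x) n := by
      ext m
      rw [mem_flt, Finset.mem_Ioc]
      constructor
      · exact fun h => h.1
      · exact fun h => ⟨h, Or.inr (Or.inr h.1)⟩
    rw [h3, Nat.card_Ioc] at h2
    have h4 : cnt A' n + (N - x) = cnt A' (N - x) + n := by omega
    have h4' : (cnt A' n : ℝ) + ((N - x : ℕ) : ℝ) = cnt A' (N - x) + n := by exact_mod_cast h4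
    have h5 : ((N - x : ℕ) : ℝ) ≤ n := by exact_mod_cast hn.le
    have h6 : a * ((n : ℝ) - ((N - x : ℕ) : ℝ)) ≤ 1 * ((n : ℝ) - ((N - x : ℕ) : ℝ)) :=
      mul_le_mul_of_nonneg_right ha1 (by linarith)
    linarith

lemma core {A B : Set ℕ} (hA : 1 ∈ A) (h0 : 0 ∈ B) {M a : ℝ} (hM1 : 1 ≤ M) (ha0 : 0 < a)
    (hdens : ∀ n : ℕ, a * n ≤ cnt A n) (ha4 : a * (4 * M) ≤ 1) (N : ℕ) (hN0 : 0 < N)
    (hN : (cnt (A + B) N : ℝ) < M * a * N) (h : ℕ) :
    ∃ A' : Set ℕ, 0 ∈ A' ∧ (∀ n : ℕ, a / 2 * n ≤ cnt A' n) ∧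
      ∃ N' : ℕ, 0 < N' ∧ (cnt (A' + kB B h) N' : ℝ) ≤ 8 * (4 * M) ^ h * M * a * N' := by
  have hMpos : 0 < M := by linarith
  have hN0' : (0 : ℝ) < N := by exact_mod_cast hN0
  have hAB : A ⊆ A + B := fun x hx => ⟨x, hx, 0, h0, by simp⟩
  have hc1 : (1 : ℝ) ≤ cnt (A + B) N := by
    have h1 : 1 ≤ cnt A 1 := by
      have := cnt_succ A 0
      rw [zero_add, if_pos hA] at this
      omega
    exact_mod_cast h1.trans ((cnt_mono A hN0).trans (cnt_mono_set hAB N))
  have hN4 : (4 : ℝ) < N := by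
    by_contra hc
    push Not at hc
    have : M * a * N ≤ 1 := by
      calc M * a * N ≤ M * a * 4 := mul_le_mul_of_nonneg_left hc (by positivity)
        _ ≤ 1 := by linarith
    linarith
  obtain ⟨Z, hZ, hZA, hZc, hZK⟩ := exists_piece hM1 N hN.le h
  obtain ⟨x, hxN, hx1, hx2⟩ := exists_start (Z : Set ℕ) (a / 2) N
  have hZcard : cnt (Z : Set ℕ) N = Z.card := cnt_finset hZ
  have hZAset : (Z : Set ℕ) ⊆ A := fun z hz => hZA z hz
  -- x ≤ N / 2
  have hxhalf : (x : ℝ) ≤ N / 2 := by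
    have h1 : cnt A x + Z.card ≤ cnt (Z : Set ℕ) x + cnt A N := by
      have e2 := cnt_split A hxN
      have e4 := cnt_split (Z : Set ℕ) hxN
      have e5 : (flt (Z : Set ℕ) x N).card ≤ (flt A x N).card := by
        refine Finset.card_le_card ?_
        intro z hz
        rw [mem_flt] at hz ⊢
        exact ⟨hz.1, hZAset hz.2⟩
      omega
    have h1' : (cnt A x : ℝ) + Z.card ≤ cnt (Z : Set ℕ) x + cnt A N := by exact_mod_cast h1
    have h2 := hdens x
    have h3 : a * x ≤ a * (N / 2) := by linarith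
    exact le_of_mul_le_mul_left h3 ha0
  have hxN1 : x + 1 ≤ N := by
    have : (x : ℝ) + 1 ≤ N := by linarith
    exact_mod_cast this
  have hxZ : x + 1 ∈ (Z : Set ℕ) := by
    by_contra hc
    have h1 := hx2 (x + 1) (by omega) hxN1
    rw [cnt_succ, if_neg hc] at h1
    push_cast at h1
    have : (0 : ℝ) < a / 2 := by positivity
    linarith
  have ha1 : a / 2 ≤ 1 := by nlinarith
  refine ⟨{n | n = 0 ∨ x + n ∈ (Z : Set ℕ) ∨ N - x < n}, Or.inl rfl,
    shifted_dense ha1 hxN hx2, N - x - 1, ?_, ?_⟩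
  · have : (x : ℝ) + 1 < N := by linarith
    have h2 : x + 1 < N := by exact_mod_cast this
    omega
  · have hN'c : ((N - x - 1 : ℕ) : ℝ) = N - x - 1 := by
      have e : (N - x - 1) + x + 1 = N := by omega
      have h2 : ((N - x - 1 : ℕ) : ℝ) + x + 1 = N := by exact_mod_cast e
      linarith
    have hN'4 : (N : ℝ) ≤ 4 * ((N - x - 1 : ℕ) : ℝ) := by rw [hN'c]; linarith
    have hsum : cnt ({n | n = 0 ∨ x + n ∈ (Z : Set ℕ) ∨ N - x < n} + kB B h) (N - x - 1) ≤
        2 * cnt ((Z : Set ℕ) + kB B h) N := by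
      have h1 : cnt (kB B h) (N - x - 1) ≤ cnt ((Z : Set ℕ) + kB B h) N :=
        cnt_image _ _ (x + 1) _ _ (by omega) (fun m hm => ⟨x + 1, hxZ, m, hm, rfl⟩)
      have h2 : cnt ({n | x + n ∈ (Z : Set ℕ) + kB B h}) (N - x - 1) ≤
          cnt ((Z : Set ℕ) + kB B h) N :=
        cnt_image _ _ x _ _ (by omega) (fun m hm => hm)
      have h3 : cnt ({n | n = 0 ∨ x + n ∈ (Z : Set ℕ) ∨ N - x < n} + kB B h) (N - x - 1) ≤
          cnt (kB B h ∪ {n | x + n ∈ (Z : Set ℕ) + kB B h}) (N - x - 1) := by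
        refine cnt_congr ?_
        rintro n hn1 hn2 ⟨y, hy, c, hc, hyc⟩
        simp only at hyc
        rcases hy with hy | hy | hy
        · left
          rw [hy, zero_add] at hyc
          rw [← hyc]; exact hc
        · right
          exact ⟨x + y, hy, c, hc, by simp only; omega⟩
        · omega
      have h4 := cnt_union (kB B h) {n | x + n ∈ (Z : Set ℕ) + kB B h} (N - x - 1)
      omega
    have hZG' : (Z.card : ℝ) ≤ M * a * N := by
      have h1 : Z.card ≤ cnt (A + B) N := by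
        rw [← hZcard]
        exact cnt_mono_set (hZAset.trans hAB) N
      have h2 : (Z.card : ℝ) ≤ cnt (A + B) N := by exact_mod_cast h1
      linarith
    have h1 : (cnt ({n | n = 0 ∨ x + n ∈ (Z : Set ℕ) ∨ N - x < n} + kB B h) (N - x - 1) : ℝ) ≤
        2 * cnt ((Z : Set ℕ) + kB B h) N := by
      exact_mod_cast hsum
    have hKh : 0 ≤ (4 * M) ^ h := by positivity
    have h2 := mul_le_mul_of_nonneg_left hZG' hKh
    have h3 : (4 * M) ^ h * (M * a * N) ≤ (4 * M) ^ h * (M * a * (4 * ((N - x - 1 : ℕ) : ℝ))) :=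
      mul_le_mul_of_nonneg_left (mul_le_mul_of_nonneg_left hN'4 (by positivity)) hKh
    calc _ ≤ 2 * ((cnt ((Z : Set ℕ) + kB B h) N : ℝ)) := h1
      _ ≤ 2 * ((4 * M) ^ h * (M * a * (4 * ((N - x - 1 : ℕ) : ℝ)))) := by linarith
      _ = 8 * (4 * M) ^ h * M * a * ((N - x - 1 : ℕ) : ℝ) := by ring

theorem not_extraordinary_kB {B : Set ℕ} (h0 : 0 ∈ B) (h : ℕ) (hB : ¬ Extraordinary B) :
    ¬ Extraordinary (kB B h) := by
  intro hE
  unfold Extraordinary at hB
  push Not at hB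
  obtain ⟨M, hM⟩ := hB
  have hM1 : 1 ≤ M := by
    obtain ⟨A, hA, hA0, -, hA2⟩ := hM 1 one_pos
    have h1 : schnirelmannDensity A ≤ schnirelmannDensity (A + B) :=
      schnirelmannDensity_le_of_subset (fun x hx => ⟨x, hx, 0, h0, by simp⟩)
    by_contra hc
    push Not at hc
    nlinarith
  have hMpos : 0 < M := by linarith
  obtain ⟨R, hR⟩ : ∃ R : ℝ, R = 8 * (4 * M) ^ h * M := ⟨_, rfl⟩
  have hR0 : 0 < R := by rw [hR]; positivity
  obtain ⟨δ', hδ', hE⟩ := hE (2 * R + 1)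
  obtain ⟨A, hA, ha0, ha1, ha2⟩ := hM (min (δ' / (2 * R)) (1 / (4 * M))) (by positivity)
  have ha3 : schnirelmannDensity A * (2 * R) < δ' := by
    have := lt_of_lt_of_le ha1 (min_le_left _ _)
    rwa [lt_div_iff₀ (by positivity)] at this
  have ha4 : schnirelmannDensity A * (4 * M) < 1 := by
    have := lt_of_lt_of_le ha1 (min_le_right _ _)
    rwa [lt_div_iff₀ (by positivity)] at this
  obtain ⟨N, hN0, hN⟩ := dens_lt ha2
  have h1A : 1 ∈ A := by
    by_contra hh
    exact ha0.ne' (schnirelmannDensity_eq_zero_of_one_notMem hh)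
  obtain ⟨A', hA'0, hdense, N', hN'0, hfin⟩ := core h1A h0 hM1 ha0 (dens_mul_le A) ha4.le N hN0 hN h
  have hσ1 : schnirelmannDensity A / 2 ≤ schnirelmannDensity A' := le_dens (fun n _ => hdense n)
  have hσ2 : schnirelmannDensity (A' + kB B h) ≤ R * schnirelmannDensity A := by
    refine dens_le_of N' hN'0 ?_
    rw [hR]
    exact hfin
  have hσ3 : schnirelmannDensity A' ≤ schnirelmannDensity (A' + kB B h) :=
    schnirelmannDensity_le_of_subset (fun y hy => ⟨y, hy, 0, zero_mem_kB h0 h, by simp⟩)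
  have hRa : 0 < R * schnirelmannDensity A := by positivity
  have h5 := hE A' hA'0 (by linarith) (by linarith)
  have h6 : R * (schnirelmannDensity A / 2) ≤ R * schnirelmannDensity A' :=
    mul_le_mul_of_nonneg_left hσ1 hR0.le
  linarith

end Pool.Agent.Lib.MP_b75bf2_nt
end

section
/-!
A lower bound for a sumset by Parseval's identity modulo `P`.
-/
set_option autoImplicit false
open Classical
open scoped Pointwise ComplexConjugate

namespace Pool.Agent.Lib.MP_b75bf2_nt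

/-- The Fourier transform of `ν` (on `[0, x]`) at the real frequency `θ`. -/
noncomputable def ft (ν : ℕ → ℝ) (x : ℕ) (θ : ℝ) : ℂ :=
  ∑ b ∈ Finset.range (x + 1), (ν b : ℂ) * Complex.exp (2 * Real.pi * Complex.I * (b * θ))

section
variable (P : ℕ) [NeZero P]

/-- The character `e (k n / P)`. -/
noncomputable def ee (k : ZMod P) (n : ℕ) : ℂ := ZMod.stdAddChar (N := P) (k * (n : ZMod P))

lemma ee_add (k : ZMod P) (m n : ℕ) : ee P k (m + n) = ee P k m * ee P k n := by
  unfold ee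
  rw [Nat.cast_add, mul_add, AddChar.map_add_eq_mul]

lemma norm_ee (k : ZMod P) (n : ℕ) : ‖ee P k n‖ = 1 := by
  unfold ee
  exact AddChar.norm_apply _ _

lemma ee_eq (k : ZMod P) (n : ℕ) :
    ee P k n = Complex.exp (2 * Real.pi * Complex.I * (n * (((k.val : ℝ) / P : ℝ)))) := by
  unfold ee
  have h1 : (k * (n : ZMod P)) = (((k.val * n : ℕ) : ℤ) : ZMod P) := by
    push_cast
    rw [ZMod.natCast_zmod_val]
  rw [h1, ZMod.stdAddChar_coe]
  congr 1
  push_cast
  have hP : (P : ℂ) ≠ 0 := by exact_mod_cast NeZero.ne P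
  field_simp

lemma sum_ee (n m : ℕ) (h : n = m ∨ ((n : ZMod P) ≠ (m : ZMod P))) :
    ∑ k : ZMod P, ee P k n * conj (ee P k m) = if n = m then (P : ℂ) else 0 := by
  have h1 : ∀ k : ZMod P, ee P k n * conj (ee P k m) =
      ZMod.stdAddChar (N := P) (k * ((n : ZMod P) - (m : ZMod P))) := by
    intro k
    unfold ee
    rw [← AddChar.map_neg_eq_conj, ← AddChar.map_add_eq_mul]
    congr 1
    ring
  simp_rw [h1]
  rw [AddChar.sum_mulShift _ (ZMod.isPrimitive_stdAddChar P)]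
  rcases h with h | h
  · subst h
    simp
  · have : n ≠ m := fun e => h (by rw [e])
    rw [if_neg this, if_neg (sub_ne_zero.2 h)]
    simp

/-- Parseval. -/
lemma parseval (S : Finset ℕ) (f : ℕ → ℝ)
    (hS : ∀ n ∈ S, ∀ m ∈ S, n = m ∨ ((n : ZMod P) ≠ (m : ZMod P))) :
    ∑ k : ZMod P, ‖∑ n ∈ S, (f n : ℂ) * ee P k n‖ ^ 2 = P * ∑ n ∈ S, f n ^ 2 := by
  have h1 : ((∑ k : ZMod P, ‖∑ n ∈ S, (f n : ℂ) * ee P k n‖ ^ 2 : ℝ) : ℂ) =
      ((P * ∑ n ∈ S, f n ^ 2 : ℝ) : ℂ) := by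
    push_cast
    have h2 : ∀ k : ZMod P, ((‖∑ n ∈ S, (f n : ℂ) * ee P k n‖ : ℂ)) ^ 2 =
        ∑ n ∈ S, ∑ m ∈ S, (f n : ℂ) * (f m : ℂ) * (ee P k n * conj (ee P k m)) := by
      intro k
      rw [← Complex.mul_conj', map_sum, Finset.sum_mul_sum]
      refine Finset.sum_congr rfl (fun n _ => Finset.sum_congr rfl (fun m _ => ?_))
      rw [map_mul, Complex.conj_ofReal]
      ring
    simp_rw [h2]
    rw [Finset.sum_comm, Finset.mul_sum]
    refine Finset.sum_congr rfl (fun n hn => ?_)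
    rw [Finset.sum_comm]
    have h3 : ∀ m ∈ S, ∑ k : ZMod P, (f n : ℂ) * (f m : ℂ) * (ee P k n * conj (ee P k m)) =
        if n = m then (P : ℂ) * (f n : ℂ) ^ 2 else 0 := by
      intro m hm
      rw [← Finset.mul_sum, sum_ee P n m (hS n hn m hm)]
      split_ifs with h
      · subst h; ring
      · ring
    rw [Finset.sum_congr rfl h3, Finset.sum_ite_eq, if_pos hn]
  exact_mod_cast h1

end

lemma distinct_mod {P m x n k : ℕ} (hP : 2 * x < P) (hn : m ≤ n ∧ n ≤ m + 2 * x)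
    (hk : m ≤ k ∧ k ≤ m + 2 * x) : n = k ∨ ((n : ZMod P) ≠ (k : ZMod P)) := by
  by_cases h : (n : ZMod P) = (k : ZMod P)
  · left
    refine Nat.ModEq.eq_of_abs_lt ((ZMod.natCast_eq_natCast_iff n k P).1 h) ?_
    rw [abs_lt]
    omega
  · exact Or.inr h

/-- The number of frequencies `k / P` close to an integer. -/
lemma card_bad (P : ℕ) [NeZero P] {D : ℝ} (hD : 0 ≤ D) :
    ∃ Bd : Finset (ZMod P), (∀ k, ((k.val : ℝ) / P < D ∨ 1 - (k.val : ℝ) / P < D) → k ∈ Bd) ∧
      (Bd.card : ℝ) ≤ 2 * (D * P) + 2 := by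
  have hP : (0 : ℝ) < P := by exact_mod_cast NeZero.pos P
  have hsub : ∀ k, ((k.val : ℝ) / P < D ∨ 1 - (k.val : ℝ) / P < D) → k ∈
      (Finset.univ : Finset (ZMod P)).filter (fun k => (k.val : ℝ) < D * P) ∪
      (Finset.univ : Finset (ZMod P)).filter (fun k => ((P - k.val : ℕ) : ℝ) < D * P) := by
    intro k hk
    rw [Finset.mem_union, Finset.mem_filter, Finset.mem_filter]
    rcases hk with h | h
    · left
      rw [div_lt_iff₀ hP] at h
      exact ⟨Finset.mem_univ _, h⟩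
    · right
      have hlt := ZMod.val_lt k
      refine ⟨Finset.mem_univ _, ?_⟩
      rw [Nat.cast_sub hlt.le]
      rw [sub_lt_iff_lt_add, ← sub_lt_iff_lt_add', lt_div_iff₀ hP] at h
      linarith
  have h1 : (((Finset.univ : Finset (ZMod P)).filter (fun k => (k.val : ℝ) < D * P)).card : ℝ) ≤
      D * P + 1 := by
    have e1 : ((Finset.univ : Finset (ZMod P)).filter (fun k => (k.val : ℝ) < D * P)).card ≤
        (Finset.range ⌈D * P⌉₊).card := by
      refine Finset.card_le_card_of_injOn (fun k => k.val) ?_ ?_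
      · intro k hk
        rw [Finset.mem_coe, Finset.mem_filter] at hk
        rw [Finset.mem_coe, Finset.mem_range]
        exact Nat.lt_ceil.2 hk.2
      · intro a _ b _ hab
        exact ZMod.val_injective P hab
    rw [Finset.card_range] at e1
    have e2 : ((⌈D * P⌉₊ : ℕ) : ℝ) < D * P + 1 := Nat.ceil_lt_add_one (by positivity)
    have e3 : (((Finset.univ : Finset (ZMod P)).filter
      (fun k => (k.val : ℝ) < D * P)).card : ℝ) ≤ ((⌈D * P⌉₊ : ℕ) : ℝ) := by exact_mod_cast e1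
    linarith
  have h2 : (((Finset.univ : Finset (ZMod P)).filter
      (fun k => ((P - k.val : ℕ) : ℝ) < D * P)).card : ℝ) ≤ D * P + 1 := by
    have e1 : ((Finset.univ : Finset (ZMod P)).filter
        (fun k => ((P - k.val : ℕ) : ℝ) < D * P)).card ≤
        (Finset.range ⌈D * P⌉₊).card := by
      refine Finset.card_le_card_of_injOn (fun k => P - k.val) ?_ ?_
      · intro k hk
        rw [Finset.mem_coe, Finset.mem_filter] at hk
        rw [Finset.mem_coe, Finset.mem_range]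
        exact Nat.lt_ceil.2 hk.2
      · intro a _ b _ hab
        have ha := ZMod.val_lt a
        have hb := ZMod.val_lt b
        simp only at hab
        exact ZMod.val_injective P (by omega)
    rw [Finset.card_range] at e1
    have e2 : ((⌈D * P⌉₊ : ℕ) : ℝ) < D * P + 1 := Nat.ceil_lt_add_one (by positivity)
    have e3 : (((Finset.univ : Finset (ZMod P)).filter
      (fun k => ((P - k.val : ℕ) : ℝ) < D * P)).card : ℝ) ≤ ((⌈D * P⌉₊ : ℕ) : ℝ) := by
      exact_mod_cast e1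
    linarith
  refine ⟨_, hsub, ?_⟩
  have h4 : ((((Finset.univ : Finset (ZMod P)).filter (fun k => (k.val : ℝ) < D * P)) ∪
    ((Finset.univ : Finset (ZMod P)).filter
      (fun k => ((P - k.val : ℕ) : ℝ) < D * P))).card : ℝ) ≤
    (((Finset.univ : Finset (ZMod P)).filter (fun k => (k.val : ℝ) < D * P)).card : ℝ) +
    (((Finset.univ : Finset (ZMod P)).filter
      (fun k => ((P - k.val : ℕ) : ℝ) < D * P)).card : ℝ) := by
    exact_mod_cast Finset.card_union_le _ _
  linarith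

lemma near_int {t : ℝ} {D : ℝ} (h : ¬ ∀ j : ℤ, D ≤ |t - j|) :
    t < D ∨ 1 - t < D := by
  push Not at h
  obtain ⟨j, hj⟩ := h
  rcases le_or_gt j 0 with h0 | h0
  · left
    have h1 : (j : ℝ) ≤ 0 := by exact_mod_cast h0
    have := le_abs_self (t - j)
    linarith
  · right
    have h1 : (1 : ℝ) ≤ j := by exact_mod_cast h0
    have := neg_le_abs (t - j)
    linarith

/-- Lower bound for `A + E` where `E` carries a measure with small Fourier transform. -/
lemma l2_bound (A0 : Finset ℕ) (m : ℕ) (ν : ℕ → ℝ) (x : ℕ) (hx : 0 < x)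
    (hA0 : ∀ a ∈ A0, m ≤ a ∧ a ≤ m + x) (hν0 : ∀ b, 0 ≤ ν b)
    (hν1 : ∑ b ∈ Finset.range (x + 1), ν b = 1) {C ε : ℝ} (hC : 0 < C)
    (hft : ∀ θ : ℝ, (∀ j : ℤ, C / x ≤ |θ - j|) → ‖ft ν x θ‖ ≤ ε) (T : Finset ℕ)
    (hT : ∀ a ∈ A0, ∀ b ≤ x, ν b ≠ 0 → a + b ∈ T) (hTm : ∀ n ∈ T, m ≤ n ∧ n ≤ m + 2 * x) :
    (A0.card : ℝ) ≤ T.card * (ε ^ 2 + 4 * C / x * A0.card) := by
  have hx' : (0 : ℝ) < x := by exact_mod_cast hx
  obtain ⟨P, hP1, hP2⟩ : ∃ P : ℕ, 2 * x < P ∧ (x : ℝ) / C ≤ P :=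
    ⟨max (2 * x + 1) ⌈(x : ℝ) / C⌉₊, lt_of_lt_of_le (Nat.lt_succ_self _) (le_max_left _ _),
      (Nat.le_ceil _).trans (by exact_mod_cast le_max_right _ _)⟩
  have : NeZero P := ⟨by omega⟩
  have hP0 : (0 : ℝ) < P := by exact_mod_cast NeZero.pos P
  set f : ℕ → ℝ := fun n => ∑ a ∈ A0, ∑ b ∈ Finset.range (x + 1), if a + b = n then ν b else 0
    with hf
  -- total mass
  have hmass : ∑ n ∈ T, f n = A0.card := by
    rw [hf]
    simp only
    rw [Finset.sum_comm]
    have h1 : ∀ a ∈ A0, ∑ n ∈ T, ∑ b ∈ Finset.range (x + 1), (if a + b = n then ν b else 0) = 1 := by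
      intro a ha
      rw [Finset.sum_comm, ← hν1]
      refine Finset.sum_congr rfl (fun b hb => ?_)
      rw [Finset.sum_ite_eq]
      by_cases h0 : ν b = 0
      · rw [h0]; simp
      · rw [if_pos (hT a ha b (by rw [Finset.mem_range] at hb; omega) h0)]
    rw [Finset.sum_congr rfl h1]
    simp
  -- Fourier transform
  have hfour : ∀ k : ZMod P, ∑ n ∈ T, (f n : ℂ) * ee P k n =
      (∑ a ∈ A0, ((1 : ℝ) : ℂ) * ee P k a) * ft ν x ((k.val : ℝ) / P) := by
    intro k
    have h1 : ft ν x ((k.val : ℝ) / P) = ∑ b ∈ Finset.range (x + 1), (ν b : ℂ) * ee P k b := by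
      unfold ft
      refine Finset.sum_congr rfl (fun b _ => ?_)
      rw [ee_eq]
    rw [h1, Finset.sum_mul_sum, hf]
    simp only
    push_cast
    simp_rw [Finset.sum_mul]
    rw [Finset.sum_comm]
    refine Finset.sum_congr rfl (fun a ha => ?_)
    rw [Finset.sum_comm]
    refine Finset.sum_congr rfl (fun b hb => ?_)
    have h2 : ∀ n : ℕ, (((if a + b = n then ν b else 0 : ℝ)) : ℂ) * ee P k n =
        if a + b = n then (ν b : ℂ) * ee P k (a + b) else 0 := by
      intro n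
      split_ifs with h
      · rw [h]
      · simp
    rw [Finset.sum_congr rfl (fun n _ => h2 n), Finset.sum_ite_eq]
    by_cases h0 : ν b = 0
    · rw [h0]; simp
    · rw [if_pos (hT a ha b (by rw [Finset.mem_range] at hb; omega) h0), ee_add]
      ring
  have hft1 : ∀ θ : ℝ, ‖ft ν x θ‖ ≤ 1 := by
    intro θ
    unfold ft
    refine (norm_sum_le _ _).trans ?_
    rw [← hν1]
    refine Finset.sum_le_sum (fun b _ => ?_)
    rw [norm_mul, Complex.norm_real, Real.norm_of_nonneg (hν0 b)]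
    have : ‖Complex.exp (2 * Real.pi * Complex.I * (b * θ))‖ = 1 := by
      have e : (2 * Real.pi * Complex.I * (b * θ) : ℂ) = ((2 * Real.pi * (b * θ) : ℝ) : ℂ) *
        Complex.I := by push_cast; ring
      rw [e, Complex.norm_exp_ofReal_mul_I]
    rw [this, mul_one]
  have hA1 : ∀ k : ZMod P, ‖∑ a ∈ A0, ((1 : ℝ) : ℂ) * ee P k a‖ ≤ A0.card := by
    intro k
    refine (norm_sum_le _ _).trans ?_
    have : ∀ a ∈ A0, ‖((1 : ℝ) : ℂ) * ee P k a‖ = 1 := by
      intro a _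
      rw [norm_mul, norm_ee]; simp
    rw [Finset.sum_congr rfl this]
    simp
  have hpar1 := parseval P A0 (fun _ => 1) (fun n hn k hk => by
    refine distinct_mod hP1 (m := m) ?_ ?_
    · have := hA0 n hn; omega
    · have := hA0 k hk; omega)
  have hpar2 := parseval P T f (fun n hn k hk => distinct_mod hP1 (hTm n hn) (hTm k hk))
  simp only [one_pow, Finset.sum_const, nsmul_eq_mul, mul_one] at hpar1
  obtain ⟨Bd, hBd1, hbad⟩ := card_bad P (D := C / x) (by positivity)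
  have hup : ∑ k : ZMod P, ‖∑ n ∈ T, (f n : ℂ) * ee P k n‖ ^ 2 ≤
      ε ^ 2 * (P * A0.card) + (Bd.card : ℝ) * (A0.card : ℝ) ^ 2 := by
    have h1 : ∀ k ∈ (Finset.univ : Finset (ZMod P)), ‖∑ n ∈ T, (f n : ℂ) * ee P k n‖ ^ 2 ≤
        ε ^ 2 * ‖∑ a ∈ A0, ((1 : ℝ) : ℂ) * ee P k a‖ ^ 2 +
          if k ∈ Bd then (A0.card : ℝ) ^ 2 else 0 := by
      intro k _
      rw [hfour k, norm_mul, mul_pow]
      have h2 : 0 ≤ ‖∑ a ∈ A0, ((1 : ℝ) : ℂ) * ee P k a‖ ^ 2 := by positivity
      by_cases hk : k ∈ Bd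
      · rw [if_pos hk]
        have h3 : ‖ft ν x ((k.val : ℝ) / P)‖ ^ 2 ≤ 1 :=
          pow_le_one₀ (norm_nonneg _) (hft1 _)
        have h4 : ‖∑ a ∈ A0, ((1 : ℝ) : ℂ) * ee P k a‖ ^ 2 ≤ (A0.card : ℝ) ^ 2 :=
          pow_le_pow_left₀ (norm_nonneg _) (hA1 k) 2
        have h5 : 0 ≤ ε ^ 2 * ‖∑ a ∈ A0, ((1 : ℝ) : ℂ) * ee P k a‖ ^ 2 := by positivity
        nlinarith
      · rw [if_neg hk, add_zero]
        have hk' : ∀ j : ℤ, C / x ≤ |(k.val : ℝ) / P - j| := by
          by_contra hcc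
          exact hk (hBd1 k (near_int hcc))
        have h3 : ‖ft ν x ((k.val : ℝ) / P)‖ ^ 2 ≤ ε ^ 2 :=
          pow_le_pow_left₀ (norm_nonneg _) (hft _ hk') 2
        nlinarith
    refine (Finset.sum_le_sum h1).trans ?_
    rw [Finset.sum_add_distrib, ← Finset.mul_sum, hpar1, Finset.sum_ite_mem, Finset.univ_inter,
      Finset.sum_const, nsmul_eq_mul]
  have hcs : (∑ n ∈ T, f n) ^ 2 ≤ T.card * ∑ n ∈ T, f n ^ 2 := sq_sum_le_card_mul_sum_sq
  rw [hmass] at hcs
  rw [hpar2] at hup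
  rcases Nat.eq_zero_or_pos A0.card with hz | hz
  · rw [hz]
    have : 0 ≤ (T.card : ℝ) * (ε ^ 2 + 4 * C / x * ((0 : ℕ) : ℝ)) := by positivity
    simpa using this
  · have hA0' : (0 : ℝ) < A0.card := by exact_mod_cast hz
    have hTc : (0 : ℝ) ≤ T.card := Nat.cast_nonneg _
    have hCP : 1 ≤ C / x * P := by
      rw [div_le_iff₀ hC] at hP2
      rw [div_mul_eq_mul_div, le_div_iff₀ hx']
      linarith
    have h1 : (Bd.card : ℝ) ≤ 4 * (C / x) * P := by
      linarith
    have h2 : (P : ℝ) * ∑ n ∈ T, f n ^ 2 ≤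
        P * (ε ^ 2 * A0.card + 4 * (C / x) * (A0.card : ℝ) ^ 2) := by
      have h3 : (Bd.card : ℝ) * (A0.card : ℝ) ^ 2 ≤
        4 * (C / x) * P * (A0.card : ℝ) ^ 2 := mul_le_mul_of_nonneg_right h1 (by positivity)
      linarith
    have h3 := le_of_mul_le_mul_left h2 hP0
    have h4 := mul_le_mul_of_nonneg_left h3 hTc
    have h5 : (A0.card : ℝ) * A0.card ≤
        A0.card * (T.card * (ε ^ 2 + 4 * C / x * A0.card)) := by
      calc (A0.card : ℝ) * A0.card = (A0.card : ℝ) ^ 2 := by ring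
        _ ≤ T.card * (ε ^ 2 * A0.card + 4 * (C / x) * (A0.card : ℝ) ^ 2) := hcs.trans h4
        _ = _ := by ring
    exact le_of_mul_le_mul_left h5 hA0'

end Pool.Agent.Lib.MP_b75bf2_nt
end
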