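import Mathlib

section
/-!
Counting function, the queue with service rate one and its busy set.
-/
set_option autoImplicit false
open Classical
open scoped Pointwise

namespace Pool.Agent.Lib.MP_b75bf2_nt

/-- Number of elements of `S` in `[1, x]`. -/
noncomputable def cnt (S : Set ℕ) (x : ℕ) : ℕ := ((Finset.Ioc 0 x).filter (fun a => a ∈ S)).card

lemma cnt_zero (S : Set ℕ) : cnt S 0 = 0 := by simp [cnt]

lemma cnt_succ (S : Set ℕ) (n : ℕ) : cnt S (n + 1) = cnt S n + (if n + 1 ∈ S then 1 else 0) := by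
  unfold cnt
  have h : Finset.Ioc 0 (n + 1) = insert (n + 1) (Finset.Ioc 0 n) := by
    ext a; simp only [Finset.mem_Ioc, Finset.mem_insert]; omega
  rw [h, Finset.filter_insert]
  split_ifs with hh
  · rw [Finset.card_insert_of_notMem]
    simp
  · rfl

lemma cnt_mono_set {S T : Set ℕ} (h : S ⊆ T) (x : ℕ) : cnt S x ≤ cnt T x := by
  unfold cnt
  exact Finset.card_le_card (Finset.monotone_filter_right _ (fun a _ ha => h ha))

lemma cnt_mono (S : Set ℕ) {x y : ℕ} (h : x ≤ y) : cnt S x ≤ cnt S y := by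
  unfold cnt
  exact Finset.card_le_card (Finset.filter_subset_filter _ (Finset.Ioc_subset_Ioc_right h))

lemma cnt_le (S : Set ℕ) (x : ℕ) : cnt S x ≤ x := by
  unfold cnt
  exact (Finset.card_filter_le _ _).trans (by simp)

lemma cnt_union (S T : Set ℕ) (x : ℕ) : cnt (S ∪ T) x ≤ cnt S x + cnt T x := by
  unfold cnt
  refine le_trans (Finset.card_le_card ?_) (Finset.card_union_le _ _)
  intro a ha
  simp only [Finset.mem_filter, Finset.mem_union, Set.mem_union] at ha ⊢
  tauto

lemma dens_mul_le (S : Set ℕ) (n : ℕ) : schnirelmannDensity S * n ≤ cnt S n :=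
  schnirelmannDensity_mul_le_card_filter

lemma le_dens {S : Set ℕ} {x : ℝ} (h : ∀ n : ℕ, 0 < n → x * n ≤ cnt S n) :
    x ≤ schnirelmannDensity S := by
  rw [le_schnirelmannDensity_iff]
  intro n hn
  rw [le_div_iff₀ (by exact_mod_cast hn)]
  exact h n hn

lemma dens_lt {S : Set ℕ} {x : ℝ} (h : schnirelmannDensity S < x) :
    ∃ n : ℕ, 0 < n ∧ (cnt S n : ℝ) < x * n := by
  rw [schnirelmannDensity_lt_iff] at h
  obtain ⟨n, hn, h⟩ := h
  refine ⟨n, hn, ?_⟩
  rw [div_lt_iff₀ (by exact_mod_cast hn)] at h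
  exact h

lemma dens_le_of {S : Set ℕ} {x : ℝ} (n : ℕ) (hn : 0 < n) (h : (cnt S n : ℝ) ≤ x * n) :
    schnirelmannDensity S ≤ x := by
  refine schnirelmannDensity_le_of_le n hn.ne' ?_
  rw [div_le_iff₀ (by exact_mod_cast hn)]
  exact h

/-- Work load at time `n` of the queue: every element of `S` (except `0`) brings work `q`, one
unit is served per unit of time. -/
noncomputable def load (S : Set ℕ) (q : ℕ) : ℕ → ℕ
  | 0 => 0
  | n + 1 => (load S q n - 1) + (if n + 1 ∈ S then q else 0)

/-- Busy times, together with `0`. -/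
def busy (S : Set ℕ) (q : ℕ) : Set ℕ := {n | n = 0 ∨ 1 ≤ load S q n}

lemma zero_mem_busy (S : Set ℕ) (q : ℕ) : 0 ∈ busy S q := Or.inl rfl

lemma mem_busy_succ (S : Set ℕ) (q n : ℕ) : n + 1 ∈ busy S q ↔ 1 ≤ load S q (n + 1) := by
  simp [busy]

/-- Conservation of work. -/
lemma work (S : Set ℕ) (q : ℕ) (n : ℕ) :
    cnt (busy S q) n + load S q (n + 1) = q * cnt S (n + 1) := by
  induction n with
  | zero =>
    rw [cnt_zero, cnt_succ, cnt_zero, load, load]
    split_ifs <;> simp
  | succ n ih =>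
    rw [cnt_succ (busy S q) n, cnt_succ S (n + 1), load]
    have h2 : (if n + 1 ∈ busy S q then 1 else 0) + (load S q (n + 1) - 1) = load S q (n + 1) := by
      rw [if_congr (mem_busy_succ S q n) rfl rfl]
      split_ifs with hh <;> omega
    have h3 : (if n + 1 + 1 ∈ S then q else 0) = q * (if n + 1 + 1 ∈ S then 1 else 0) := by
      split_ifs <;> simp
    rw [mul_add, ← ih, h3]
    omega

lemma busy_le (S : Set ℕ) (q n : ℕ) : cnt (busy S q) n ≤ q * cnt S n := by
  cases n with
  | zero => simp [cnt_zero]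
  | succ n =>
    rw [cnt_succ, ← work S q n, if_congr (mem_busy_succ S q n) rfl rfl]
    split_ifs with hh <;> omega

lemma busy_ge {S : Set ℕ} {q : ℕ} {a : ℝ} (ha : ∀ n : ℕ, a * n ≤ cnt S n)
    (haq : a * q ≤ 1) (n : ℕ) : a * q * n ≤ cnt (busy S q) n := by
  induction n with
  | zero => simp [cnt_zero]
  | succ n ih =>
    by_cases hb : n + 1 ∈ busy S q
    · rw [cnt_succ, if_pos hb]
      push_cast
      nlinarith
    · rw [mem_busy_succ] at hb
      have h1 := work S q n
      have h2 : load S q (n + 1) = 0 := by omega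
      rw [h2, add_zero] at h1
      have h3 := ha (n + 1)
      have h4 : (cnt (busy S q) n : ℝ) = q * cnt S (n + 1) := by exact_mod_cast h1
      have h5 : (cnt (busy S q) n : ℝ) ≤ cnt (busy S q) (n + 1) := by
        exact_mod_cast cnt_mono _ (Nat.le_succ n)
      refine le_trans ?_ h5
      rw [h4]
      have hq0 : (0 : ℝ) ≤ q := Nat.cast_nonneg q
      calc a * q * ((n + 1 : ℕ) : ℝ) = q * (a * ((n + 1 : ℕ) : ℝ)) := by ring
        _ ≤ q * cnt S (n + 1) := mul_le_mul_of_nonneg_left h3 hq0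

lemma load_shift {A C : Set ℕ} (q b : ℕ) (h : ∀ n ∈ A, n + b ∈ C) (n : ℕ) :
    load A q n ≤ load C q (n + b) := by
  induction n with
  | zero => simp [load]
  | succ n ih =>
    have e : n + 1 + b = (n + b) + 1 := by omega
    rw [e, load, load]
    have h1 : (if n + 1 ∈ A then q else 0) ≤ (if n + b + 1 ∈ C then q else 0) := by
      by_cases hA : n + 1 ∈ A
      · have := h _ hA
        rw [e] at this
        rw [if_pos hA, if_pos this]
      · rw [if_neg hA]; exact Nat.zero_le _
    omega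

lemma busy_add_subset {A B : Set ℕ} {q : ℕ} (hq : 1 ≤ q) (hA : 0 ∈ A) :
    busy A q + B ⊆ busy (A + B) q := by
  rintro z ⟨x, hx, b, hb, rfl⟩
  rcases hx with hx | hx
  · subst hx
    simp only [zero_add]
    cases b with
    | zero => exact zero_mem_busy _ _
    | succ b =>
      rw [mem_busy_succ, load]
      have : b + 1 ∈ A + B := ⟨0, hA, b + 1, hb, by simp⟩
      rw [if_pos this]
      omega
  · right
    refine le_trans hx ?_
    exact load_shift q b (fun n hn => Set.add_mem_add hn hb) x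

/-- The last arrival before a busy time. -/
lemma last_arrival (S : Set ℕ) (q : ℕ) (n : ℕ) (h : 1 ≤ load S q n) :
    ∃ s ∈ S, 1 ≤ s ∧ s ≤ n ∧ s + load S q s = n + load S q n := by
  induction n with
  | zero => simp [load] at h
  | succ n ih =>
    by_cases hn : n + 1 ∈ S
    · exact ⟨n + 1, hn, by omega, le_refl _, rfl⟩
    · rw [load, if_neg hn, add_zero] at h ⊢
      obtain ⟨s, hs, h1, h2, h3⟩ := ih (by omega)
      exact ⟨s, hs, h1, by omega, by omega⟩

/-- A non busy time `z` which is less than `y` later than a busy time. -/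
lemma after_end (S : Set ℕ) (q : ℕ) (y x : ℕ) (hx : x ∈ busy S q) (z : ℕ) (hxz : x ≤ z)
    (hz : z < x + y) (hzb : z ∉ busy S q) :
    ∃ s, (s = 0 ∨ s ∈ S ∧ 1 ≤ s) ∧ s ≤ z ∧ ∃ j < y, z = s + load S q s + j := by
  -- the largest busy time before z
  obtain ⟨e, he, hez, hmax⟩ : ∃ e, e ∈ busy S q ∧ e < z ∧ ∀ f, f ∈ busy S q → f < z → f ≤ e := by
    have hxz' : x < z := lt_of_le_of_ne hxz (fun h => hzb (h ▸ hx))
    have hne : ((Finset.range z).filter (fun f => f ∈ busy S q)).Nonempty :=
      ⟨x, by simp [hxz', hx]⟩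
    refine ⟨((Finset.range z).filter (fun f => f ∈ busy S q)).max' hne, ?_, ?_, ?_⟩
    · have := Finset.max'_mem _ hne
      exact (Finset.mem_filter.1 this).2
    · have := Finset.max'_mem _ hne
      exact Finset.mem_range.1 (Finset.mem_filter.1 this).1
    · intro f hf hfz
      exact Finset.le_max' _ _ (by simp [hf, hfz])
  have hxe : x ≤ e := by
    have hxz' : x < z := lt_of_le_of_ne hxz (fun h => hzb (h ▸ hx))
    exact hmax x hx hxz'
  have hnb : e + 1 ∉ busy S q := by
    intro hb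
    rcases lt_or_eq_of_le (Nat.succ_le_of_lt hez) with h | h
    · have := hmax (e + 1) hb h
      omega
    · exact hzb (h ▸ hb)
  rw [mem_busy_succ] at hnb
  have hl0 : load S q (e + 1) = 0 := by omega
  rw [load] at hl0
  have hl1 : load S q e ≤ 1 := by omega
  rcases he with he | he
  · subst he
    exact ⟨0, Or.inl rfl, Nat.zero_le _, z, by omega, by simp [load]⟩
  · obtain ⟨s, hs, h1, h2, h3⟩ := last_arrival S q e he
    refine ⟨s, Or.inr ⟨hs, h1⟩, by omega, z - (e + 1), by omega, by omega⟩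

lemma cnt_after (S : Set ℕ) (q y N : ℕ) (E : Set ℕ)
    (hE : ∀ z ∈ E, ∃ s, (s = 0 ∨ s ∈ S ∧ 1 ≤ s) ∧ s ≤ z ∧ ∃ j < y, z = s + load S q s + j) :
    cnt E N ≤ (cnt S N + 1) * y := by
  have h1 : (Finset.Ioc 0 N).filter (fun a => a ∈ E) ⊆
      ((insert 0 ((Finset.Ioc 0 N).filter (fun a => a ∈ S))) ×ˢ (Finset.range y)).image
        (fun p : ℕ × ℕ => p.1 + load S q p.1 + p.2) := by
    intro z hz
    rw [Finset.mem_filter, Finset.mem_Ioc] at hz
    obtain ⟨s, hs, hsz, j, hj, hzz⟩ := hE z hz.2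
    rw [Finset.mem_image]
    refine ⟨(s, j), ?_, hzz.symm⟩
    rw [Finset.mem_product]
    refine ⟨?_, Finset.mem_range.2 hj⟩
    rw [Finset.mem_insert]
    rcases hs with hs | hs
    · exact Or.inl hs
    · right
      rw [Finset.mem_filter, Finset.mem_Ioc]
      exact ⟨⟨hs.2, hsz.trans hz.1.2⟩, hs.1⟩
  unfold cnt
  refine (Finset.card_le_card h1).trans (Finset.card_image_le.trans ?_)
  rw [Finset.card_product, Finset.card_range]
  exact Nat.mul_le_mul_right _ (Finset.card_insert_le _ _)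

/-- Removing from `B` the elements between `1` and `y` changes `busy A q + B` very little. -/
lemma busy_tail {A B : Set ℕ} {q y : ℕ} (hq : 1 ≤ q) (hA : 0 ∈ A) (hB : 0 ∈ B) (N : ℕ) :
    cnt (busy A q + B) N ≤
      q * cnt (A + {b | b ∈ B ∧ (b = 0 ∨ y ≤ b)}) N + (cnt A N + 1) * y := by
  set C : Set ℕ := {b | b ∈ B ∧ (b = 0 ∨ y ≤ b)} with hC
  set E : Set ℕ := {z | z ∉ busy A q ∧ ∃ x ∈ busy A q, x ≤ z ∧ z < x + y} with hE
  have h1 : busy A q + B ⊆ busy (A + C) q ∪ E := by
    rintro z ⟨x, hx, b, hb, rfl⟩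
    by_cases hby : b = 0 ∨ y ≤ b
    · left
      exact busy_add_subset hq hA ⟨x, hx, b, ⟨hb, hby⟩, rfl⟩
    · push Not at hby
      by_cases hz : x + b ∈ busy A q
      · left
        have : x + b + 0 ∈ busy A q + C := ⟨x + b, hz, 0, ⟨hB, Or.inl rfl⟩, rfl⟩
        exact busy_add_subset hq hA this
      · right
        exact ⟨hz, x, hx, by simp, by simp only; omega⟩
  have h2 : cnt E N ≤ (cnt A N + 1) * y := by
    refine cnt_after A q y N E ?_
    rintro z ⟨hz, x, hx, hxz, hzy⟩
    exact after_end A q y x hx z hxz hzy hz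
  calc cnt (busy A q + B) N ≤ cnt (busy (A + C) q ∪ E) N := cnt_mono_set h1 N
    _ ≤ cnt (busy (A + C) q) N + cnt E N := cnt_union _ _ _
    _ ≤ _ := Nat.add_le_add (busy_le _ _ _) h2

end Pool.Agent.Lib.MP_b75bf2_nt
end

section
/-!
Glueing: sets which are bad at one scale each are put behind each other.
-/
set_option autoImplicit false
open Classical
open scoped Pointwise

namespace Pool.Agent.Lib.MP_b75bf2_nt

section
variable (F : ℕ → ℕ → Set ℕ) (G : ℕ → ℕ → ℕ)

/-- Starting positions of the blocks. -/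
def pos : ℕ → ℕ
  | 0 => 0
  | k + 1 => pos k + G (pos k) k

/-- The glued set. -/
def glued : Set ℕ :=
  {n | n = 0 ∨ ∃ k, pos G k < n ∧ n ≤ pos G (k + 1) ∧ n - pos G k ∈ F (pos G k) k}

lemma pos_succ (k : ℕ) : pos G (k + 1) = pos G k + G (pos G k) k := rfl

lemma pos_strict (hG : ∀ M k, 0 < G M k) : StrictMono (pos G) := by
  refine strictMono_nat_of_lt_succ (fun k => ?_)
  rw [pos_succ]
  have := hG (pos G k) k
  omega

lemma unique_block (hG : ∀ M k, 0 < G M k) {k l x : ℕ} (h1 : pos G k < x) (h2 : x ≤ pos G (k + 1))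
    (h3 : pos G l < x) (h4 : x ≤ pos G (l + 1)) : k = l := by
  have hm := (pos_strict G hG).monotone
  rcases lt_trichotomy k l with h | h | h
  · have := hm (Nat.succ_le_of_lt h)
    have h5 : pos G (k + 1) ≤ pos G l := this
    omega
  · exact h
  · have := hm (Nat.succ_le_of_lt h)
    have h5 : pos G (l + 1) ≤ pos G k := this
    omega

lemma glued_ge (k t : ℕ) (ht : t ≤ G (pos G k) k) :
    cnt (glued F G) (pos G k) + cnt (F (pos G k) k) t ≤ cnt (glued F G) (pos G k + t) := by
  induction t with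
  | zero => simp [cnt_zero]
  | succ t ih =>
    have ih' := ih (by omega)
    rw [← add_assoc (pos G k) t 1, cnt_succ, cnt_succ]
    have h1 : (if t + 1 ∈ F (pos G k) k then 1 else 0) ≤
        (if pos G k + t + 1 ∈ glued F G then 1 else 0) := by
      by_cases h : t + 1 ∈ F (pos G k) k
      · have : pos G k + t + 1 ∈ glued F G := by
          right
          refine ⟨k, by omega, by rw [pos_succ]; omega, ?_⟩
          have e : pos G k + t + 1 - pos G k = t + 1 := by omega
          rw [e]; exact h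
        rw [if_pos h, if_pos this]
      · rw [if_neg h]; exact Nat.zero_le _
    omega

lemma exists_block (hG : ∀ M k, 0 < G M k) (n : ℕ) : ∃ k t, t ≤ G (pos G k) k ∧ n = pos G k + t := by
  induction n with
  | zero => exact ⟨0, 0, Nat.zero_le _, rfl⟩
  | succ n ih =>
    obtain ⟨k, t, ht, hn⟩ := ih
    rcases lt_or_eq_of_le ht with h | h
    · exact ⟨k, t + 1, h, by omega⟩
    · exact ⟨k + 1, 1, hG _ _, by rw [pos_succ]; omega⟩

lemma glued_dense (hG : ∀ M k, 0 < G M k) {α : ℝ}
    (hF : ∀ M k, ∀ n : ℕ, α * n ≤ cnt (F M k) n) (n : ℕ) : α * n ≤ cnt (glued F G) n := by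
  have key : ∀ k t : ℕ, t ≤ G (pos G k) k →
      α * ((pos G k + t : ℕ) : ℝ) ≤ cnt (glued F G) (pos G k + t) := by
    intro k
    induction k with
    | zero =>
      intro t ht
      have h1 := glued_ge F G 0 t ht
      have h2 := hF (pos G 0) 0 t
      have h3 : (cnt (F (pos G 0) 0) t : ℝ) ≤ cnt (glued F G) (pos G 0 + t) := by
        exact_mod_cast le_trans (Nat.le_add_left _ _) h1
      have h5 : (cnt (F (pos G 0) 0) t : ℝ) ≤ cnt (glued F G) (0 + t) := h3
      change α * ((0 + t : ℕ) : ℝ) ≤ cnt (glued F G) (0 + t)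
      rw [zero_add] at h5 ⊢
      exact h2.trans h5
    | succ k ih =>
      intro t ht
      have h1 := glued_ge F G (k + 1) t ht
      have h2 := hF (pos G (k + 1)) (k + 1) t
      have h3 := ih (G (pos G k) k) le_rfl
      rw [← pos_succ] at h3
      have h4 : (cnt (glued F G) (pos G (k + 1)) : ℝ) + cnt (F (pos G (k + 1)) (k + 1)) t ≤
          cnt (glued F G) (pos G (k + 1) + t) := by exact_mod_cast h1
      push_cast
      linarith
  obtain ⟨k, t, ht, hn⟩ := exists_block G hG n
  rw [hn]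
  exact key k t ht

lemma glued_add_le (hG : ∀ M k, 0 < G M k) (B : Set ℕ) (k : ℕ) :
    cnt (glued F G + B) (G (pos G k) k) ≤
      cnt (F (pos G k) k + B) (G (pos G k) k) +
        (pos G k + 1) * (cnt B (G (pos G k) k) + 1) := by
  set N := G (pos G k) k with hN
  set P := pos G k with hP
  have h1 : (Finset.Ioc 0 N).filter (fun a => a ∈ glued F G + B) ⊆
      (((Finset.Ioc 0 N).filter (fun a => a ∈ F P k + B)).image (fun z => z + P)) ∪
      ((Finset.range (P + 1)) ×ˢ (insert 0 ((Finset.Ioc 0 N).filter (fun a => a ∈ B)))).image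
        (fun p : ℕ × ℕ => p.1 + p.2) := by
    intro z hz
    rw [Finset.mem_filter, Finset.mem_Ioc] at hz
    obtain ⟨hzN, x, hx, b, hb, hxb⟩ := hz
    simp only at hxb
    rw [Finset.mem_union]
    by_cases hxP : x ≤ P
    · right
      rw [Finset.mem_image]
      refine ⟨(x, b), ?_, hxb⟩
      rw [Finset.mem_product]
      refine ⟨Finset.mem_range.2 (Nat.lt_succ_of_le hxP), ?_⟩
      rw [Finset.mem_insert, Finset.mem_filter, Finset.mem_Ioc]
      rcases Nat.eq_zero_or_pos b with h | h
      · exact Or.inl h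
      · exact Or.inr ⟨⟨h, by omega⟩, hb⟩
    · left
      push Not at hxP
      rcases hx with hx | ⟨l, hl1, hl2, hl3⟩
      · omega
      · have hxk : x ≤ pos G (k + 1) := by
          rw [pos_succ, ← hP, ← hN]; omega
        have hlk : l = k := unique_block G hG hl1 hl2 hxP hxk
        subst hlk
        rw [Finset.mem_image]
        refine ⟨z - P, ?_, by omega⟩
        rw [Finset.mem_filter, Finset.mem_Ioc]
        refine ⟨by omega, ?_⟩
        refine ⟨x - P, hl3, b, hb, ?_⟩
        simp only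
        omega
  unfold cnt
  refine (Finset.card_le_card h1).trans ((Finset.card_union_le _ _).trans ?_)
  refine Nat.add_le_add Finset.card_image_le (Finset.card_image_le.trans ?_)
  rw [Finset.card_product, Finset.card_range]
  exact Nat.mul_le_mul_left _ (Finset.card_insert_le _ _)

end

/-- If for every `M` and every positive `ε` there is a set of density at least `α` which at some
scale `N` has a sum with `B` of relative size at most `α + ε`, where `B` has at most
`ε N / (M + 1)` elements, then there is one set `X` of density at least `α` such that `X + B` has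
density at most `α`. -/
lemma glue {B : Set ℕ} {α : ℝ}
    (H : ∀ (M : ℕ) (ε : ℝ), 0 < ε → ∃ (X : Set ℕ) (N : ℕ), (∀ n : ℕ, α * n ≤ cnt X n) ∧
      0 < N ∧ (cnt (X + B) N : ℝ) ≤ (α + ε) * N ∧ ((M : ℝ) + 1) * (cnt B N + 1) ≤ ε * N) :
    ∃ X : Set ℕ, 0 ∈ X ∧ α ≤ schnirelmannDensity X ∧ schnirelmannDensity (X + B) ≤ α := by
  have hpos : ∀ k : ℕ, (0 : ℝ) < 1 / ((k : ℝ) + 1) := fun k => by positivity
  choose F G hF hG h1 h2 using fun (M k : ℕ) => H M (1 / ((k : ℝ) + 1)) (hpos k)
  refine ⟨glued F G, Or.inl rfl, le_dens (fun n _ => glued_dense F G hG hF n), ?_⟩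
  refine le_of_forall_pos_le_add (fun ε hε => ?_)
  obtain ⟨k, hk⟩ := exists_nat_one_div_lt (half_pos hε)
  refine dens_le_of (G (pos G k) k) (hG _ _) ?_
  have h3 := glued_add_le F G hG B k
  have h4 := h1 (pos G k) k
  have h5 := h2 (pos G k) k
  have h6 : (cnt (glued F G + B) (G (pos G k) k) : ℝ) ≤
      cnt (F (pos G k) k + B) (G (pos G k) k) +
        ((pos G k : ℝ) + 1) * (cnt B (G (pos G k) k) + 1) := by exact_mod_cast h3
  have h7 : (0 : ℝ) < G (pos G k) k := by exact_mod_cast hG _ _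
  nlinarith

end Pool.Agent.Lib.MP_b75bf2_nt
end
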