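import Pool.Agent.Lib.MP_b75bf2_nt.Fourier

/-!
Sets carrying measures with small Fourier transform are extraordinary components.
-/

set_option autoImplicit false
open Classical
open scoped Pointwise

namespace Pool.Agent.Lib.MP_b75bf2_nt

/-- The beginning of the busy period containing a busy time. -/
lemma run_start (S : Set ℕ) (q : ℕ) (n : ℕ) (h : 1 ≤ load S q n) :
    ∃ m, m + 1 ≤ n ∧ load S q m = 0 ∧ ∀ k, m + 1 ≤ k → k ≤ n →
      1 ≤ load S q k ∧ q * cnt S k = q * cnt S m + load S q k + (k - (m + 1)) := by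
  induction n with
  | zero => simp [load] at h
  | succ n ih =>
    by_cases hn : load S q n = 0
    · refine ⟨n, le_rfl, hn, ?_⟩
      intro k hk1 hk2
      have e : k = n + 1 := by omega
      subst e
      refine ⟨h, ?_⟩
      have h1 : load S q (n + 1) = if n + 1 ∈ S then q else 0 := by rw [load, hn]; simp
      by_cases hS : n + 1 ∈ S
      · rw [if_pos hS] at h1
        rw [cnt_succ, if_pos hS, h1]
        rw [mul_add]; omega
      · rw [if_neg hS] at h1; omega
    · obtain ⟨m, hm1, hm2, hm3⟩ := ih (by omega)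
      refine ⟨m, by omega, hm2, ?_⟩
      intro k hk1 hk2
      rcases Nat.lt_or_ge n k with hk | hk
      · have e : k = n + 1 := by omega
        subst e
        refine ⟨h, ?_⟩
        obtain ⟨h3, h4⟩ := hm3 n hm1 le_rfl
        rw [cnt_succ, load, mul_add, h4]
        by_cases hS : n + 1 ∈ S
        · rw [if_pos hS, if_pos hS]; omega
        · rw [if_neg hS, if_neg hS]; omega
      · exact hm3 k hk1 hk

/-- `E` carries measures with small Fourier transform at all large scales. -/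
def Spectral (E : Set ℕ) : Prop :=
  ∀ ε : ℝ, 0 < ε → ∃ C : ℝ, 0 < C ∧ ∀ x : ℕ, C ≤ x → ∃ ν : ℕ → ℝ, (∀ b, 0 ≤ ν b) ∧
    (∀ b, ν b ≠ 0 → b ∈ E ∧ b ≤ x) ∧ ∑ b ∈ Finset.range (x + 1), ν b = 1 ∧
      ∀ θ : ℝ, (∀ j : ℤ, C / x ≤ |θ - j|) → ‖ft ν x θ‖ ≤ ε

/-- Growth in one long run. -/
lemma run_growth {A E : Set ℕ} {ε C : ℝ} (hε : 0 < ε) (hC : 0 < C)
    (hsp : ∀ x : ℕ, C ≤ x → ∃ ν : ℕ → ℝ, (∀ b, 0 ≤ ν b) ∧
      (∀ b, ν b ≠ 0 → b ∈ E ∧ b ≤ x) ∧ ∑ b ∈ Finset.range (x + 1), ν b = 1 ∧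
      ∀ θ : ℝ, (∀ j : ℤ, C / x ≤ |θ - j|) → ‖ft ν x θ‖ ≤ ε) {q : ℕ} (hq : 0 < q)
    (hqC : 8 * C ≤ q * ε ^ 2) (m n : ℕ) (hmn : m + 1 ≤ n) (hlong : 2 * C + 4 ≤ ((n - m : ℕ) : ℝ))
    (hrun : ∀ k, m + 1 ≤ k → k ≤ n → k - m ≤ q * (flt A m k).card) :
    ((n - m : ℕ) : ℝ) ≤ 4 * q * ε ^ 2 * (flt (A + E) m n).card := by
  obtain ⟨x, hx1, hx2⟩ : ∃ x : ℕ, 2 * x + 1 ≤ n - m ∧ n - m ≤ 2 * (x + 1) :=
    ⟨(n - m - 1) / 2, by omega, by omega⟩
  have hxC : C + 1 ≤ x := by
    have h1 : ((n - m : ℕ) : ℝ) ≤ 2 * ((x : ℝ) + 1) := by exact_mod_cast hx2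
    linarith
  have hx0 : (0 : ℝ) < x := by linarith
  have hx0' : 0 < x := by exact_mod_cast hx0
  obtain ⟨ν, hν0, hνE, hν1, hνf⟩ := hsp x (by linarith)
  set A0 : Finset ℕ := flt A m (m + 1 + x) with hA0
  have hl2 := l2_bound A0 (m + 1) ν x hx0' (by
    intro a ha
    rw [hA0, mem_flt] at ha
    omega) hν0 hν1 hC hνf (flt (A + E) m (m + 1 + 2 * x)) (by
    intro a ha b hb hb0
    rw [hA0, mem_flt] at ha
    rw [mem_flt]
    exact ⟨by omega, a, ha.2, b, (hνE b hb0).1, rfl⟩) (by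
    intro k hk
    rw [mem_flt] at hk
    omega)
  have hk1 := hrun (m + 1 + x) (by omega) (by omega)
  have hk2 : (x : ℝ) + 1 ≤ q * A0.card := by
    have : x + 1 ≤ q * A0.card := by
      have e : m + 1 + x - m = x + 1 := by omega
      rw [e] at hk1
      exact hk1
    exact_mod_cast this
  have hT : (flt (A + E) m (m + 1 + 2 * x)).card ≤ (flt (A + E) m n).card := by
    refine Finset.card_le_card ?_
    intro k hk
    rw [mem_flt] at hk ⊢
    exact ⟨by omega, hk.2⟩
  have hT' : ((flt (A + E) m (m + 1 + 2 * x)).card : ℝ) ≤ (flt (A + E) m n).card := by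
    exact_mod_cast hT
  have hL : ((n - m : ℕ) : ℝ) ≤ 2 * ((x : ℝ) + 1) := by exact_mod_cast hx2
  obtain ⟨t, ht⟩ : ∃ t : ℝ, t = ((flt (A + E) m (m + 1 + 2 * x)).card : ℝ) := ⟨_, rfl⟩
  obtain ⟨k, hk⟩ : ∃ k : ℝ, k = (A0.card : ℝ) := ⟨_, rfl⟩
  rw [← ht] at hT' hl2
  rw [← hk] at hk2 hl2
  have ht0 : 0 ≤ t := by rw [ht]; exact Nat.cast_nonneg _
  have hk0 : 0 ≤ k := by rw [hk]; exact Nat.cast_nonneg _
  have hq' : (0 : ℝ) < q := by exact_mod_cast hq
  have hqe : 0 < (q : ℝ) * ε ^ 2 := by positivity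
  by_contra hc
  push Not at hc
  have h1 : 4 * q * ε ^ 2 * t < 2 * ((x : ℝ) + 1) := by
    have : 4 * q * ε ^ 2 * t ≤ 4 * q * ε ^ 2 * (flt (A + E) m n).card :=
      mul_le_mul_of_nonneg_left hT' (by positivity)
    linarith
  have h2 : t * (8 * C) ≤ x := by
    have : t * (8 * C) ≤ t * (q * ε ^ 2) := mul_le_mul_of_nonneg_left hqC ht0
    nlinarith
  have h3 : t * (4 * C / x) ≤ 1 / 2 := by
    rw [← mul_div_assoc, div_le_iff₀ hx0]
    linarith
  have h4 : t * (ε ^ 2 + 4 * C / x * k) ≤ t * ε ^ 2 + 1 / 2 * k := by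
    have := mul_le_mul_of_nonneg_right h3 hk0
    linarith
  have h5 : k / 2 ≤ t * ε ^ 2 := by linarith
  have h6 := mul_le_mul_of_nonneg_left h5 hq'.le
  linarith

theorem spectral_extraordinary {E : Set ℕ} (h0 : 0 ∈ E) (hE : Spectral E) : Extraordinary E := by
  intro M
  obtain ⟨ε, hε, hεM⟩ : ∃ ε : ℝ, 0 < ε ∧ M * (8 * ε ^ 2) ≤ 1 := by
    refine ⟨1 / (8 * (|M| + 1)), by positivity, ?_⟩
    have h1 : M ≤ |M| := le_abs_self M
    have h2 : 0 ≤ |M| := abs_nonneg M
    have h3 : 8 * (1 / (8 * (|M| + 1))) ^ 2 = 1 / (8 * (|M| + 1) ^ 2) := by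
      field_simp
    rw [h3, mul_one_div, div_le_one (by positivity)]
    nlinarith
  obtain ⟨C, hC, hsp⟩ := hE ε hε
  obtain ⟨q, hq1, hq2, hq3⟩ : ∃ q : ℕ, 8 * C ≤ q * ε ^ 2 ∧ 2 * C + 4 ≤ q ∧
      2 * C + 4 ≤ 2 * (q * ε ^ 2) := by
    obtain ⟨q, hq⟩ := exists_nat_ge (max (8 * C / ε ^ 2) (max (2 * C + 4) ((2 * C + 4) / ε ^ 2)))
    refine ⟨q, ?_, ?_, ?_⟩
    · have := (le_max_left _ _).trans hq
      rwa [div_le_iff₀ (by positivity)] at this
    · exact (le_max_left _ _).trans ((le_max_right _ _).trans hq)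
    · have := (le_max_right _ _).trans ((le_max_right _ _).trans hq)
      rw [div_le_iff₀ (by positivity)] at this
      have h2 : 0 ≤ q * ε ^ 2 := by positivity
      linarith
  have hq' : (0 : ℝ) < q := by linarith
  have hq0 : 0 < q := by exact_mod_cast hq'
  obtain ⟨κ, hκ⟩ : ∃ κ : ℝ, κ = 4 * q * ε ^ 2 := ⟨_, rfl⟩
  have hκ0 : 0 < κ := by rw [hκ]; positivity
  refine ⟨1 / q, by positivity, ?_⟩
  intro A hA ha0 ha1
  have haq : schnirelmannDensity A * q ≤ 1 := by
    rw [lt_div_iff₀ hq'] at ha1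
    exact ha1.le
  have hAE : A ⊆ A + E := fun x hx => ⟨x, hx, 0, h0, by simp⟩
  -- one run
  have hone : ∀ n m : ℕ, m + 1 ≤ n → (∀ k, m + 1 ≤ k → k ≤ n →
      1 ≤ load A q k ∧ q * cnt A k = q * cnt A m + load A q k + (k - (m + 1))) →
      (cnt (busy A q) m : ℝ) ≤ κ * cnt (A + E) m →
      (cnt (busy A q) n : ℝ) ≤ κ * cnt (A + E) n + (if 2 * C + 4 ≤ ((n - m : ℕ) : ℝ) then 0
        else (2 * C + 4)) := by
    intro n m hmn hrun hm
    have h1 : cnt (busy A q) n ≤ cnt (busy A q) m + (n - m) := by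
      rw [cnt_split (busy A q) (show m ≤ n by omega)]
      refine Nat.add_le_add_left ?_ _
      refine (Finset.card_filter_le _ _).trans ?_
      rw [Nat.card_Ioc]
    have h1' : (cnt (busy A q) n : ℝ) ≤ cnt (busy A q) m + ((n - m : ℕ) : ℝ) := by
      exact_mod_cast h1
    have h2 : cnt (A + E) n = cnt (A + E) m + (flt (A + E) m n).card :=
      cnt_split _ (by omega)
    have h2' : (cnt (A + E) n : ℝ) = cnt (A + E) m + (flt (A + E) m n).card := by
      exact_mod_cast h2
    split_ifs with hlong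
    · have h3 := run_growth (A := A) hε hC hsp hq0 hq1 m n hmn hlong (by
        intro k hk1 hk2
        obtain ⟨h4, h5⟩ := hrun k hk1 hk2
        have h6 := cnt_split A (show m ≤ k by omega)
        rw [h6, mul_add] at h5
        omega)
      rw [← hκ] at h3
      rw [h2']
      linarith
    · push Not at hlong
      have h3 : (0 : ℝ) ≤ κ * (flt (A + E) m n).card := by positivity
      rw [h2']
      linarith
  -- idle times
  have hidle : ∀ n : ℕ, load A q n = 0 → (cnt (busy A q) n : ℝ) ≤ κ * cnt (A + E) n := by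
    intro n
    induction n using Nat.strong_induction_on with
    | _ n ih =>
      intro hn
      cases n with
      | zero => simp [cnt_zero]
      | succ n =>
        have hnb : n + 1 ∉ busy A q := by rw [mem_busy_succ]; omega
        have h1 : cnt (busy A q) (n + 1) = cnt (busy A q) n := by
          rw [cnt_succ, if_neg hnb]; simp
        have h2 : (cnt (A + E) n : ℝ) ≤ cnt (A + E) (n + 1) := by
          exact_mod_cast cnt_mono _ (Nat.le_succ n)
        have h2' : κ * cnt (A + E) n ≤ κ * cnt (A + E) (n + 1) :=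
          mul_le_mul_of_nonneg_left h2 hκ0.le
        rw [h1]
        by_cases hb : load A q n = 0
        · have := ih n (Nat.lt_succ_self n) hb
          linarith
        · obtain ⟨m, hm1, hm2, hm3⟩ := run_start A q n (by omega)
          have h3 := hone n m hm1 hm3 (ih m (by omega) hm2)
          have h4 : q ≤ n - m := by
            obtain ⟨h5, h6⟩ := hm3 n hm1 le_rfl
            rw [load] at hn
            have h7 : load A q n = 1 := by omega
            have h8 := cnt_split A (show m ≤ n by omega)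
            rw [h8, mul_add, h7] at h6
            have h9 : q * (flt A m n).card = n - m := by omega
            have h10 : 0 < (flt A m n).card := by
              rcases Nat.eq_zero_or_pos (flt A m n).card with hz | hz
              · rw [hz] at h9; omega
              · exact hz
            calc q = q * 1 := (mul_one q).symm
              _ ≤ q * (flt A m n).card := Nat.mul_le_mul_left _ h10
              _ = n - m := h9
          have h5 : 2 * C + 4 ≤ ((n - m : ℕ) : ℝ) := by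
            have : (q : ℝ) ≤ ((n - m : ℕ) : ℝ) := by exact_mod_cast h4
            linarith
          rw [if_pos h5] at h3
          linarith
  have hall : ∀ n : ℕ, (cnt (busy A q) n : ℝ) ≤ κ * cnt (A + E) n + (2 * C + 4) := by
    intro n
    by_cases hb : load A q n = 0
    · have := hidle n hb
      linarith
    · obtain ⟨m, hm1, hm2, hm3⟩ := run_start A q n (by omega)
      have h3 := hone n m hm1 hm3 (hidle m hm2)
      split_ifs at h3 <;> linarith
  have h1A : 1 ∈ A := by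
    by_contra hh
    exact ha0.ne' (schnirelmannDensity_eq_zero_of_one_notMem hh)
  -- conclusion
  refine le_dens (fun n hn => ?_)
  have hc1 : (1 : ℝ) ≤ cnt (A + E) n := by
    have h1 : 1 ≤ cnt A 1 := by
      have := cnt_succ A 0
      rw [zero_add, if_pos h1A] at this
      omega
    exact_mod_cast h1.trans ((cnt_mono A hn).trans (cnt_mono_set hAE n))
  have h1 := busy_ge (S := A) (q := q) (a := schnirelmannDensity A) (fun n => dens_mul_le A n)
    haq n
  have h2 := hall n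
  have hn0 : (0 : ℝ) ≤ schnirelmannDensity A * n := by positivity
  have h3 : M * (schnirelmannDensity A * n) * (8 * ε ^ 2) ≤ schnirelmannDensity A * n := by
    have := mul_le_mul_of_nonneg_right hεM hn0
    linarith
  have h4 : schnirelmannDensity A * n * q ≤ 4 * q * ε ^ 2 * cnt (A + E) n + 2 * (q * ε ^ 2) := by
    rw [← hκ]; linarith
  have h5 : schnirelmannDensity A * n ≤ 4 * ε ^ 2 * cnt (A + E) n + 2 * ε ^ 2 := by
    have h6 : (schnirelmannDensity A * n) * q ≤
        (4 * ε ^ 2 * cnt (A + E) n + 2 * ε ^ 2) * q := by linarith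
    exact le_of_mul_le_mul_right h6 hq'
  have hε2 : 0 < 8 * ε ^ 2 := by positivity
  have h7 : M * (schnirelmannDensity A * n) * (8 * ε ^ 2) ≤ cnt (A + E) n * (8 * ε ^ 2) := by
    nlinarith
  have h8 := le_of_mul_le_mul_right h7 hε2
  linarith

end Pool.Agent.Lib.MP_b75bf2_nt
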