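import Pool.Agent.Lib.MP_b75bf2_nt.Fourier
import Pool.Agent.Lib.MP_b75bf2_nt.Spectral

/-!
Assembly: finite changes and bounded numbers of summands do not matter.
-/

set_option autoImplicit false
open Classical
open scoped Pointwise

namespace Pool.Agent.Lib.MP_b75bf2_nt

lemma Extraordinary.mono {E F : Set ℕ} (h : E ⊆ F) (hE : Extraordinary E) : Extraordinary F := by
  intro M
  obtain ⟨δ, hδ, H⟩ := hE M
  refine ⟨δ, hδ, fun A hA h0 h1 => (H A hA h0 h1).trans (schnirelmannDensity_le_of_subset ?_)⟩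
  exact Set.add_subset_add_left h

/-- Removing a finite part. -/
lemma extraordinary_tail {B : Set ℕ} (h0 : 0 ∈ B) (y : ℕ) (hB : Extraordinary B) :
    Extraordinary (tail B y) := by
  intro M'
  obtain ⟨M, hM1, hM2⟩ : ∃ M : ℝ, 0 < M ∧ M' ≤ M := ⟨|M'| + 1, by positivity,
    (le_abs_self M').trans (by linarith)⟩
  obtain ⟨δ, hδ, H⟩ := hB (M * (1 + 2 * y) + 1)
  refine ⟨δ, hδ, fun A hA ha0 ha1 => ?_⟩
  have h1 := H A hA ha0 ha1
  have hMle : M' * schnirelmannDensity A ≤ M * schnirelmannDensity A :=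
    mul_le_mul_of_nonneg_right hM2 ha0.le
  refine hMle.trans ?_
  by_contra hc
  push Not at hc
  obtain ⟨n, hn, hn1⟩ := dens_lt hc
  have hAT : A ⊆ A + tail B y := fun x hx => ⟨x, hx, 0, zero_mem_tail h0 y, by simp⟩
  have h1A : 1 ∈ A := by
    by_contra hh
    exact ha0.ne' (schnirelmannDensity_eq_zero_of_one_notMem hh)
  have hc1 : (1 : ℝ) ≤ cnt (A + tail B y) n := by
    have h1 : 1 ≤ cnt A 1 := by
      have := cnt_succ A 0
      rw [zero_add, if_pos h1A] at this
      omega
    exact_mod_cast h1.trans ((cnt_mono A hn).trans (cnt_mono_set hAT n))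
  have hcA : (cnt A n : ℝ) ≤ cnt (A + tail B y) n := by exact_mod_cast cnt_mono_set hAT n
  have h2 : cnt (A + B) n ≤ cnt (A + tail B y) n + (cnt A n + 1) * y := by
    have h3 : flt (A + B) 0 n ⊆ flt (A + tail B y) 0 n ∪
        ((insert 0 (flt A 0 n)) ×ˢ (Finset.range y)).image (fun p : ℕ × ℕ => p.1 + p.2) := by
      intro z hz
      rw [mem_flt] at hz
      obtain ⟨hzn, a, ha, b, hb, hab⟩ := hz
      simp only at hab
      rw [Finset.mem_union]
      by_cases hby : y ≤ b
      · left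
        rw [mem_flt]
        exact ⟨hzn, a, ha, b, ⟨hb, Or.inr hby⟩, hab⟩
      · right
        rw [Finset.mem_image]
        refine ⟨(a, b), ?_, hab⟩
        rw [Finset.mem_product, Finset.mem_insert, mem_flt, Finset.mem_range]
        refine ⟨?_, by simp only; omega⟩
        rcases Nat.eq_zero_or_pos a with h | h
        · exact Or.inl h
        · exact Or.inr ⟨⟨h, by simp only; omega⟩, ha⟩
    rw [cnt_eq_flt (A + B), cnt_eq_flt (A + tail B y), cnt_eq_flt A]
    refine (Finset.card_le_card h3).trans ((Finset.card_union_le _ _).trans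
      (Nat.add_le_add_left (Finset.card_image_le.trans ?_) _))
    rw [Finset.card_product, Finset.card_range]
    exact Nat.mul_le_mul_right _ (Finset.card_insert_le _ _)
  have h2' : (cnt (A + B) n : ℝ) ≤ cnt (A + tail B y) n + (cnt A n + 1) * y := by
    exact_mod_cast h2
  have h3 := dens_mul_le (A + B) n
  have hn0 : (0 : ℝ) < n := by exact_mod_cast hn
  have hy : (0 : ℝ) ≤ y := Nat.cast_nonneg y
  have h4 : ((cnt A n : ℝ) + 1) * y ≤ (2 * cnt (A + tail B y) n) * y :=
    mul_le_mul_of_nonneg_right (by linarith) hy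
  have h5 : (cnt (A + B) n : ℝ) ≤ cnt (A + tail B y) n * (1 + 2 * y) := by linarith
  have h6 : (cnt (A + tail B y) n : ℝ) * (1 + 2 * y) ≤
      M * schnirelmannDensity A * n * (1 + 2 * y) :=
    mul_le_mul_of_nonneg_right hn1.le (by positivity)
  have h7 := mul_le_mul_of_nonneg_right h1 hn0.le
  have h8 : 0 < schnirelmannDensity A * n := by positivity
  linarith

lemma zero_mem_sums (B : Set ℕ) (h : ℕ → ℕ) : 0 ∈ sums B h := ⟨[], by simp, by simp⟩

lemma tail_subset_sums {B : Set ℕ} {h : ℕ → ℕ} {y : ℕ} (hy : ∀ b, y ≤ b → 1 ≤ h b) :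
    tail B y ⊆ sums B h := by
  rintro b ⟨hb, hb0 | hby⟩
  · rw [hb0]; exact zero_mem_sums B h
  · refine ⟨[b], ?_, by simp⟩
    intro b' hb'
    rw [List.mem_singleton] at hb'
    subst hb'
    exact ⟨hb, by simpa using hy _ hby⟩

lemma list_sum_mem_kB {B : Set ℕ} (h0 : 0 ∈ B) (k : ℕ) (l : List ℕ) (hl : l.length ≤ k)
    (hlB : ∀ b ∈ l, b ∈ B) : l.sum ∈ kB B k := by
  induction k generalizing l with
  | zero =>
    have : l = [] := List.length_eq_zero_iff.1 (by omega)
    subst this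
    simp [kB]
  | succ k ih =>
    cases l with
    | nil => exact zero_mem_kB h0 (k + 1)
    | cons b l =>
      refine ⟨l.sum, ih l (by simpa using hl) (fun c hc => hlB c (List.mem_cons_of_mem _ hc)),
        b, hlB b List.mem_cons_self, ?_⟩
      simp [add_comm]

lemma sums_subset_kB {B : Set ℕ} (h0 : 0 ∈ B) {h : ℕ → ℕ} {k : ℕ} (hk : ∀ b, h b ≤ k) :
    sums B h ⊆ kB B k := by
  rintro s ⟨l, hl, rfl⟩
  refine list_sum_mem_kB h0 k l ?_ (fun b hb => (hl b hb).1)
  cases l with
  | nil => simp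
  | cons b l => exact (hl b List.mem_cons_self).2.trans (hk b)

theorem bounded_iff {B : Set ℕ} (h0 : 0 ∈ B) (h : ℕ → ℕ) (hb : ∃ k, ∀ b, h b ≤ k)
    (h1 : ∀ᶠ b in Filter.atTop, 1 ≤ h b) : Extraordinary (sums B h) ↔ Extraordinary B := by
  obtain ⟨k, hk⟩ := hb
  obtain ⟨y, hy⟩ := Filter.eventually_atTop.1 h1
  constructor
  · intro hE
    by_contra hc
    exact not_extraordinary_kB h0 k hc (hE.mono (sums_subset_kB h0 hk))
  · intro hB
    exact (extraordinary_tail h0 y hB).mono (tail_subset_sums hy)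

theorem spectral_sums {B : Set ℕ} (h0 : 0 ∈ B) (J : ℕ) (hJ : Spectral (sums B fun _ => J)) :
    Extraordinary B := by
  by_contra hc
  exact not_extraordinary_kB h0 J hc
    ((spectral_extraordinary (zero_mem_sums B _) hJ).mono (sums_subset_kB h0 (fun _ => le_rfl)))

end Pool.Agent.Lib.MP_b75bf2_nt
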