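import Pool.Agent.Lib.MP_b75bf2_nt.Glue

/-!
An essential component has a uniform gain for sparse sets, also after removing any finite
part.
-/

set_option autoImplicit false
open Classical
open scoped Pointwise

namespace Pool.Agent.Lib.MP_b75bf2_nt

/-- `B` is an essential component. -/
def Essential (B : Set ℕ) : Prop :=
  ∀ A : Set ℕ, 0 ∈ A → 0 < schnirelmannDensity A → schnirelmannDensity A < 1 →
    schnirelmannDensity A < schnirelmannDensity (A + B)

/-- `B` is an extraordinary component: the ratio of the densities of `A + B` and `A` tends to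
infinity when the density of `A` tends to `0`. -/
def Extraordinary (B : Set ℕ) : Prop :=
  ∀ M : ℝ, ∃ δ : ℝ, 0 < δ ∧ ∀ A : Set ℕ, 0 ∈ A → 0 < schnirelmannDensity A →
    schnirelmannDensity A < δ → M * schnirelmannDensity A ≤ schnirelmannDensity (A + B)

/-- `0` and the elements of `B` which are at least `y`. -/
def tail (B : Set ℕ) (y : ℕ) : Set ℕ := {b | b ∈ B ∧ (b = 0 ∨ y ≤ b)}

lemma zero_mem_tail {B : Set ℕ} (h : 0 ∈ B) (y : ℕ) : 0 ∈ tail B y := ⟨h, Or.inl rfl⟩

lemma cnt_le_of_lt {T : Set ℕ} {y : ℕ} (h : ∀ b ∈ T, b < y) (N : ℕ) : cnt T N ≤ y := by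
  unfold cnt
  refine le_trans (Finset.card_le_card ?_) (Finset.card_range y).le
  intro b hb
  rw [Finset.mem_filter] at hb
  exact Finset.mem_range.2 (h b hb.2)

lemma cnt_tail (B : Set ℕ) (y N : ℕ) : cnt B N ≤ cnt (tail B y) N + y := by
  have h1 : B ⊆ tail B y ∪ {b | b < y} := by
    intro b hb
    by_cases h : y ≤ b
    · exact Or.inl ⟨hb, Or.inr h⟩
    · exact Or.inr (not_le.1 h)
  have h2 : cnt {b : ℕ | b < y} N ≤ y := cnt_le_of_lt (fun b hb => hb) N
  exact (cnt_mono_set h1 N).trans ((cnt_union _ _ _).trans (Nat.add_le_add_left h2 _))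

theorem uniform {B : Set ℕ} (h0 : 0 ∈ B) (hB : Essential B) :
    ∃ ρ : ℝ, 1 < ρ ∧ ∀ y : ℕ, ∃ δ : ℝ, 0 < δ ∧ ∀ A : Set ℕ, 0 ∈ A → 0 < schnirelmannDensity A →
      schnirelmannDensity A < δ →
        ρ * schnirelmannDensity A ≤ schnirelmannDensity (A + tail B y) := by
  by_contra hcon
  push Not at hcon
  obtain ⟨X, hX0, hX1, hX2⟩ := glue (B := B) (α := 1 / 2) (by
    intro M ε hε
    set e : ℝ := min ε 1 / 8 with he
    have he0 : 0 < e := by positivity
    have he1 : e ≤ ε / 8 := by rw [he]; gcongr; exact min_le_left _ _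
    have he2 : e ≤ 1 / 8 := by rw [he]; gcongr; exact min_le_right _ _
    obtain ⟨y, hy⟩ := hcon (1 + e) (by linarith)
    have hy0 : (0 : ℝ) ≤ y := Nat.cast_nonneg y
    have hM0 : (0 : ℝ) ≤ M := Nat.cast_nonneg M
    obtain ⟨A, hA0, ha0, ha1, ha2⟩ := hy (e / (8 * (y + 1) * (M + 1))) (by positivity)
    set a : ℝ := schnirelmannDensity A with ha
    obtain ⟨N, hN0, hN⟩ := dens_lt ha2
    have hN0' : (0 : ℝ) < N := by exact_mod_cast hN0
    have h1A : 1 ∈ A := by
      by_contra h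
      exact ha0.ne' (schnirelmannDensity_eq_zero_of_one_notMem h)
    set c : ℕ := cnt (A + tail B y) N with hc
    have hAc : A ⊆ A + tail B y := fun x hx => ⟨x, hx, 0, zero_mem_tail h0 y, by simp⟩
    have hTc : tail B y ⊆ A + tail B y := fun x hx => ⟨0, hA0, x, hx, by simp⟩
    have hc1 : (1 : ℝ) ≤ c := by
      have h1 : 1 ≤ cnt A 1 := by
        have := cnt_succ A 0
        rw [zero_add, if_pos h1A] at this
        omega
      have h2 : cnt A 1 ≤ cnt A N := cnt_mono A hN0
      have h3 : cnt A N ≤ c := cnt_mono_set hAc N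
      exact_mod_cast h1.trans (h2.trans h3)
    have hcA : (cnt A N : ℝ) ≤ c := by exact_mod_cast cnt_mono_set hAc N
    have hcB : (cnt B N : ℝ) ≤ c + y := by
      have h1 := cnt_tail B y N
      have h2 : cnt (tail B y) N ≤ c := cnt_mono_set hTc N
      exact_mod_cast h1.trans (Nat.add_le_add_right h2 _)
    -- c < (1 + e) a N ≤ 2 a N
    have hc2 : (c : ℝ) < (1 + e) * (a * N) := by
      have := hN
      rw [mul_assoc] at this
      exact this
    have haN : 0 < a * N := mul_pos ha0 hN0'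
    have hc3 : (c : ℝ) ≤ 2 * (a * N) := by nlinarith
    -- bounds for a
    have hk : a * (8 * (y + 1) * (M + 1)) ≤ e := by
      have := ha1.le
      rw [le_div_iff₀ (by positivity)] at this
      exact this
    have hay : 0 ≤ a * y := by positivity
    have haM : 0 ≤ a * M := by positivity
    have hayM : 0 ≤ a * y * M := by positivity
    have hk' : 8 * (a * y * M) + 8 * (a * y) + 8 * (a * M) + 8 * a ≤ e := by
      have e1 : a * (8 * (y + 1) * (M + 1)) =
        8 * (a * y * M) + 8 * (a * y) + 8 * (a * M) + 8 * a := by ring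
      linarith
    set q : ℕ := ⌈1 / (2 * a)⌉₊ with hq
    have hq1 : 1 / (2 * a) ≤ q := Nat.le_ceil _
    have hq2 : (q : ℝ) < 1 / (2 * a) + 1 := Nat.ceil_lt_add_one (by positivity)
    have haq1 : 1 / 2 ≤ a * q := by
      have := mul_le_mul_of_nonneg_left hq1 ha0.le
      have e1 : a * (1 / (2 * a)) = 1 / 2 := by field_simp
      linarith
    have haq2 : a * q ≤ 1 / 2 + a := by
      have := mul_le_mul_of_nonneg_left hq2.le ha0.le
      have e1 : a * (1 / (2 * a) + 1) = 1 / 2 + a := by field_simp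
      linarith
    have hqpos : 1 ≤ q := by
      rw [hq, Nat.one_le_ceil_iff]; positivity
    refine ⟨busy A q, N, ?_, hN0, ?_, ?_⟩
    · intro n
      have h1 := busy_ge (S := A) (q := q) (a := a) (fun n => dens_mul_le A n) (by linarith) n
      have h2 : (0 : ℝ) ≤ n := Nat.cast_nonneg n
      nlinarith
    · have h1 := busy_tail (A := A) (B := B) (q := q) (y := y) hqpos hA0 h0 N
      have h2 : (cnt (busy A q + B) N : ℝ) ≤ q * c + (cnt A N + 1) * y := by exact_mod_cast h1
      have hq0 : (0 : ℝ) ≤ q := Nat.cast_nonneg q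
      have h3 : (q : ℝ) * c ≤ (1 / 2 + a) * (1 + e) * N := by
        calc (q : ℝ) * c ≤ q * ((1 + e) * (a * N)) := mul_le_mul_of_nonneg_left hc2.le hq0
          _ = (a * q) * ((1 + e) * N) := by ring
          _ ≤ (1 / 2 + a) * ((1 + e) * N) := mul_le_mul_of_nonneg_right haq2 (by positivity)
          _ = _ := by ring
      have h4 : ((cnt A N : ℝ) + 1) * y ≤ 4 * (a * y) * N := by
        calc ((cnt A N : ℝ) + 1) * y ≤ (2 * (a * N) + 2 * (a * N)) * y :=
              mul_le_mul_of_nonneg_right (by linarith) hy0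
          _ = _ := by ring
      have h5 : (1 / 2 + a) * (1 + e) + 4 * (a * y) ≤ 1 / 2 + ε := by nlinarith
      calc (cnt (busy A q + B) N : ℝ) ≤ (1 / 2 + a) * (1 + e) * N + 4 * (a * y) * N := by linarith
        _ = ((1 / 2 + a) * (1 + e) + 4 * (a * y)) * N := by ring
        _ ≤ (1 / 2 + ε) * N := mul_le_mul_of_nonneg_right h5 hN0'.le
    · have h1 : (cnt B N : ℝ) + 1 ≤ 2 * (a * N) * (y + 2) := by nlinarith
      calc ((M : ℝ) + 1) * (cnt B N + 1) ≤ (M + 1) * (2 * (a * N) * (y + 2)) :=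
            mul_le_mul_of_nonneg_left h1 (by linarith)
        _ = (2 * (a * y * M) + 2 * (a * y) + 4 * (a * M) + 4 * a) * N := by ring
        _ ≤ ε * N := mul_le_mul_of_nonneg_right (by linarith) hN0'.le)
  have h1 : schnirelmannDensity X ≤ schnirelmannDensity (X + B) :=
    schnirelmannDensity_le_of_subset (fun x hx => ⟨x, hx, 0, h0, by simp⟩)
  have h2 := hB X hX0 (by linarith) (by linarith)
  linarith

/-- `C` added `k` times to `A`. -/
def addIter (A C : Set ℕ) : ℕ → Set ℕ
  | 0 => A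
  | k + 1 => addIter A C k + C

lemma zero_mem_addIter {A C : Set ℕ} (hA : 0 ∈ A) (hC : 0 ∈ C) (k : ℕ) : 0 ∈ addIter A C k := by
  induction k with
  | zero => exact hA
  | succ k ih => exact ⟨0, ih, 0, hC, rfl⟩

lemma addIter_subset_succ {A C : Set ℕ} (hC : 0 ∈ C) (k : ℕ) :
    addIter A C k ⊆ addIter A C (k + 1) := fun x hx => ⟨x, hx, 0, hC, by simp⟩

lemma iterate {C : Set ℕ} (hC : 0 ∈ C) {ρ δ : ℝ} (hρ : 1 < ρ) (hδ : 0 < δ)
    (h : ∀ A : Set ℕ, 0 ∈ A → 0 < schnirelmannDensity A → schnirelmannDensity A < δ →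
      ρ * schnirelmannDensity A ≤ schnirelmannDensity (A + C)) (m : ℕ) (A : Set ℕ) (hA : 0 ∈ A)
    (hA0 : 0 < schnirelmannDensity A) :
    min (ρ ^ m * schnirelmannDensity A) δ ≤ schnirelmannDensity (addIter A C m) := by
  induction m with
  | zero => simp only [pow_zero, one_mul]; exact min_le_left _ _
  | succ m ih =>
    have hmono : schnirelmannDensity (addIter A C m) ≤ schnirelmannDensity (addIter A C (m + 1)) :=
      schnirelmannDensity_le_of_subset (addIter_subset_succ hC m)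
    have hm0 : 0 < schnirelmannDensity (addIter A C m) := lt_of_lt_of_le (by positivity) ih
    by_cases hd : schnirelmannDensity (addIter A C m) < δ
    · have h1 := h _ (zero_mem_addIter hA hC m) hm0 hd
      have h2 : ρ ^ m * schnirelmannDensity A ≤ schnirelmannDensity (addIter A C m) := by
        rcases min_le_iff.1 ih with h3 | h3
        · exact h3
        · linarith
      refine (min_le_left _ _).trans (le_trans ?_ h1)
      rw [pow_succ]
      nlinarith
    · push Not at hd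
      exact (min_le_right _ _).trans (hd.trans hmono)

/-- All sums of finite lists of elements `b` of `B` such that the number of summands is at most
`h b` for every summand `b`. -/
def sums (B : Set ℕ) (h : ℕ → ℕ) : Set ℕ :=
  {s | ∃ l : List ℕ, (∀ b ∈ l, b ∈ B ∧ l.length ≤ h b) ∧ l.sum = s}

lemma addIter_tail_subset (A B : Set ℕ) (y : ℕ) (k : ℕ) (x : ℕ)
    (hx : x ∈ addIter A (tail B y) k) :
    ∃ a ∈ A, ∃ l : List ℕ, l.length ≤ k ∧ (∀ b ∈ l, b ∈ B ∧ y ≤ b) ∧ a + l.sum = x := by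
  induction k generalizing x with
  | zero => exact ⟨x, hx, [], le_refl _, by simp, by simp⟩
  | succ k ih =>
    obtain ⟨u, hu, b, hb, hub⟩ := hx
    obtain ⟨a, ha, l, hl1, hl2, hl3⟩ := ih u hu
    simp only at hub
    rcases hb.2 with hb0 | hby
    · exact ⟨a, ha, l, by omega, hl2, by omega⟩
    · refine ⟨a, ha, b :: l, by simp; omega, ?_, by simp; omega⟩
      intro b' hb'
      rcases List.mem_cons.1 hb' with h | h
      · rw [h]; exact ⟨hb.1, hby⟩
      · exact hl2 b' h

theorem main {B : Set ℕ} (h0 : 0 ∈ B) (hB : Essential B) :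
    ∃ ρ : ℝ, 1 < ρ ∧ ∀ (h : ℕ → ℕ) (m : ℕ), (∀ᶠ b in Filter.atTop, m ≤ h b) →
      ∃ δ : ℝ, 0 < δ ∧ ∀ A : Set ℕ, 0 ∈ A → 0 < schnirelmannDensity A →
        schnirelmannDensity A < δ →
          ρ ^ m * schnirelmannDensity A ≤ schnirelmannDensity (A + sums B h) := by
  obtain ⟨ρ, hρ, H⟩ := uniform h0 hB
  refine ⟨ρ, hρ, fun h m hm => ?_⟩
  obtain ⟨y, hy⟩ := Filter.eventually_atTop.1 hm
  obtain ⟨δ, hδ, hd⟩ := H y
  have hρm : 0 < ρ ^ m := by positivity
  refine ⟨δ / ρ ^ m, by positivity, fun A hA hA0 hA1 => ?_⟩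
  have h1 := iterate (zero_mem_tail h0 y) hρ hδ hd m A hA hA0
  have h2 : ρ ^ m * schnirelmannDensity A ≤ δ := by
    rw [lt_div_iff₀ hρm] at hA1
    linarith
  rw [min_eq_left h2] at h1
  refine h1.trans (schnirelmannDensity_le_of_subset ?_)
  intro x hx
  obtain ⟨a, ha, l, hl1, hl2, hl3⟩ := addIter_tail_subset A B y m x hx
  exact ⟨a, ha, l.sum, ⟨l, fun b hb => ⟨(hl2 b hb).1, hl1.trans (hy b (hl2 b hb).2)⟩, rfl⟩, hl3⟩

theorem extraordinary {B : Set ℕ} (h0 : 0 ∈ B) (hB : Essential B) (h : ℕ → ℕ)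
    (hh : Filter.Tendsto h Filter.atTop Filter.atTop) : Extraordinary (sums B h) := by
  obtain ⟨ρ, hρ, H⟩ := main h0 hB
  intro M
  obtain ⟨m, hm⟩ := pow_unbounded_of_one_lt M hρ
  obtain ⟨δ, hδ, hd⟩ := H h m (hh.eventually_ge_atTop m)
  refine ⟨δ, hδ, fun A hA hA0 hA1 => le_trans ?_ (hd A hA hA0 hA1)⟩
  exact mul_le_mul_of_nonneg_right hm.le hA0.le

end Pool.Agent.Lib.MP_b75bf2_nt
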